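import Pool.Agent.Q35.ST.Dsc
import Pool.Agent.Helper165.P1.Pui
import Pool.Agent.TH178.HI.Real

/-!
# The Hilbert property for smooth hypersurfaces of multidegree (2, ..., 2): definitions and
statements (helper35, project HB)
-/

set_option autoImplicit false

namespace Pool.Agent.Q35.HB

open MvPolynomial Pool.Agent.Q35.ST Pool.Agent.Helper165.P1

/-- power series as Puiseux series -/
noncomputable def ps (Ω : Type) [Field Ω] : PowerSeries Ω →+* Pui Ω :=
  (eP 1 one_pos).comp (HahnSeries.ofPowerSeries ℤ Ω)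

/-- the rational functions in the variables outside `{i, j}`, evaluated at `ξ` -/
noncomputable def Lo {ι : Type} (k : Type) {K : Type} [Field k] [Field K] [Algebra k K] (ξ : ι → K)
    (i j : ι) : IntermediateField k K :=
  IntermediateField.adjoin k (ξ '' {t | t ≠ i ∧ t ≠ j})

/-- `ξ` is the generic point of the hypersurface `F = 0` with function field `K` -/
structure Gen {ι k K : Type} [Field k] [Field K] [Algebra k K] (F : MvPolynomial ι k)
    (ξ : ι → K) : Prop where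
  ker : ∀ f, aeval ξ f = 0 ↔ F ∣ f
  top : IntermediateField.adjoin k (Set.range ξ) = ⊤

/-- the minor of the Hessian matrix with the rows and the columns `i` and `j` -/
noncomputable def hm {ι k : Type} [Field k] (F : MvPolynomial ι k) (i j : ι) : MvPolynomial ι k :=
  (pderiv i (pderiv j F)) ^ 2 - pderiv i (pderiv i F) * pderiv j (pderiv j F)

/-- the coordinates are general -/
def GoodC {κ : Type} {n : κ → ℕ} {k : Type} [Field k] (F : MvPolynomial (Pc n) k) : Prop :=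
  ∀ (l : κ) (i : Fin (n l + 1)), pderiv (⟨l, i⟩ : Pc n) (pderiv ⟨l, i⟩ F) ≠ 0 ∧
    ∀ j, j ≠ i → hm F (⟨l, i⟩ : Pc n) ⟨l, j⟩ ≠ 0

/-! ### Jobs -/

/-- JOB HEN (elements algebraic over a field of power series which is embedded in the residue field
are power series): Hensel's lemma -/
def S_HEN : Prop := ∀ (Ω L : Type) [Field Ω] [CharZero Ω] [IsAlgClosed Ω] [Field L]
  (ψ : L →+* PowerSeries Ω) (g : Polynomial L), g ≠ 0 → ∀ z : Pui Ω,
  (g.map ((ps Ω).comp ψ)).IsRoot z → ∃ f : PowerSeries Ω, ps Ω f = z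

/-- JOB SC (affine space has no covers unramified in codimension one). `κ` is algebraic over the
field of rational functions `k(x)`, `D s` is the extension of `∂/∂x_s`. -/
def S_SC : Prop := ∀ (ι k κ : Type) [Fintype ι] [DecidableEq ι] [Field k] [CharZero k] [Field κ]
  [Algebra k κ] (x : ι → κ), AlgebraicIndependent k x →
  (∀ r : κ, IsAlgebraic (IntermediateField.adjoin k (Set.range x)) r) →
  (∀ r : κ, IsAlgebraic k r → r ∈ Set.range (algebraMap k κ)) →
  ∀ D : ι → Derivation k κ κ, (∀ s t, D s (x t) = if s = t then 1 else 0) →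
  (∀ r : κ, IsIntegral (Algebra.adjoin k (Set.range x)) r →
    ∀ s, IsIntegral (Algebra.adjoin k (Set.range x)) (D s r)) →
  ∀ r : κ, r ∈ IntermediateField.adjoin k (Set.range x)

/-- JOB LG (derivations preserve integrality if this holds at all prime divisors, where it can be
read off from power series expansions along a line) -/
def S_LG : Prop := ∀ (ι k κ : Type) [Fintype ι] [DecidableEq ι] [Field k] [CharZero k] [Field κ]
  [Algebra k κ] (x : ι → κ), AlgebraicIndependent k x →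
  (∀ r : κ, IsAlgebraic (IntermediateField.adjoin k (Set.range x)) r) →
  ∀ D : ι → Derivation k κ κ, (∀ s t, D s (x t) = if s = t then 1 else 0) →
  (∀ π : MvPolynomial ι k, Irreducible π → ∀ a : ι → k, ∑ t, C (a t) * pderiv t π ≠ 0 →
    ∃ (Ω : Type) (_ : Field Ω) (_ : CharZero Ω) (_ : IsAlgClosed Ω) (_ : Algebra k Ω) (z : ι → Ω),
      (∀ f, aeval z f = 0 ↔ π ∣ f) ∧ ∀ τ : κ →+* Pui Ω,
        (∀ c : k, τ (algebraMap k κ c) = ps Ω (PowerSeries.C (algebraMap k Ω c))) →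
        (∀ t, τ (x t) = ps Ω (PowerSeries.C (z t) +
          PowerSeries.C (algebraMap k Ω (a t)) * PowerSeries.X)) →
        ∀ r, ∃ f g : PowerSeries Ω, g ≠ 0 ∧ τ r * ps Ω g = ps Ω f) →
  ∀ r : κ, IsIntegral (Algebra.adjoin k (Set.range x)) r →
    ∀ s, IsIntegral (Algebra.adjoin k (Set.range x)) (D s r)

/-- JOB EMB (a formal curve germ through a simple point over the generic point of the divisor
`π = 0`) -/
def S_EMB : Prop := ∀ (ι k Ω : Type) [Fintype ι] [DecidableEq ι] [Field k] [CharZero k] [Field Ω]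
  [CharZero Ω] [IsAlgClosed Ω] [Algebra k Ω] (F π : MvPolynomial ι k) (i j : ι) (ξ : ι → Ω)
  (a : ι → k), i ≠ j → Irreducible F → Irreducible π → i ∉ π.vars → j ∉ π.vars →
  aeval ξ π = 0 →
  (∀ f : MvPolynomial ι k, i ∉ f.vars → j ∉ f.vars → aeval ξ f = 0 → π ∣ f) →
  aeval ξ F = 0 → aeval ξ (pderiv i F) ≠ 0 → Transcendental (Lo k ξ i j) (ξ j) →
  a i = 0 → a j = 0 → ∑ t, C (a t) * pderiv t π ≠ 0 →
  ∃ ψ : MvPolynomial ι k →+* PowerSeries Ω,
    (∀ c, ψ (C c) = PowerSeries.C (algebraMap k Ω c)) ∧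
    (∀ t, PowerSeries.constantCoeff (ψ (X t)) = ξ t) ∧
    (∀ t, t ≠ i → ψ (X t) = PowerSeries.C (ξ t) +
      PowerSeries.C (algebraMap k Ω (a t)) * PowerSeries.X) ∧
    ∀ f, ψ f = 0 ↔ F ∣ f

/-- JOB DEXT (extension of derivations) -/
def S_DEXT : Prop := ∀ (ι k Ω : Type) [Fintype ι] [Field k] [CharZero k] [Field Ω] [Algebra k Ω]
  (ξ w : ι → Ω),
  (∀ f : MvPolynomial ι k, aeval ξ f = 0 → ∑ t, aeval ξ (pderiv t f) * w t = 0) →
  ∃ D : Derivation k Ω Ω, ∀ t, D (ξ t) = w t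

/-- JOB STB (stability under the tangential vector field), from DEXT -/
def S_STB : Prop := ∀ (ι k Ω : Type) [Fintype ι] [DecidableEq ι] [Field k] [CharZero k] [Field Ω]
  [Algebra k Ω] (F : MvPolynomial ι k) (ξ : ι → Ω) (i j : ι), i ≠ j → aeval ξ F = 0 →
  (Transcendental (Lo k ξ i j) (ξ i) ∨ Transcendental (Lo k ξ i j) (ξ j)) →
  ∀ f, aeval ξ f = 0 → aeval ξ (pderiv i F * pderiv j f - pderiv j F * pderiv i f) = 0

/-- JOB MAT (exchange) -/
def S_MAT : Prop := ∀ (ι k Ω : Type) [Fintype ι] [DecidableEq ι] [Field k] [Field Ω]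
  [Algebra k Ω] (ξ : ι → Ω) (I C : Finset ι), AlgebraicIndependent k (fun t : I => ξ t) →
  C.card ≤ I.card → ¬ AlgebraicIndependent k (fun t : C => ξ t) →
  ∃ t ∉ C, Transcendental (IntermediateField.adjoin k (ξ '' (C : Set ι))) (ξ t)

/-- JOB RAD (the radicals of the fibres are small), from DEXT: if the coordinates of `ξ` outside
the factor `l` contain an algebraically independent subfamily `I`, then the radical `V` of the
quadratic form `F` on the fibre over `ξ` has at most the dimension given by the number of the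
remaining coordinates -/
def S_RAD : Prop := ∀ (κ : Type) [Fintype κ] [DecidableEq κ] (n : κ → ℕ) (k Ω : Type) [Field k]
  [CharZero k] [Field Ω] [CharZero Ω] [IsAlgClosed Ω] [Algebra k Ω] (F : MvPolynomial (Pc n) k),
  MH Set.univ (fun _ => 2) F → Smth (map (algebraMap k Ω) F) → ∀ (l : κ) (ξ : Pc n → Ω),
  (∀ m, m ≠ l → ∃ i, ξ ⟨m, i⟩ ≠ 0) → ∀ I : Finset (Pc n), (∀ t ∈ I, t.1 ≠ l) →
  AlgebraicIndependent k (fun t : I => ξ t) → ∀ V : Submodule Ω (Fin (n l + 1) → Ω),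
  (∀ v ∈ V, ∀ i, aeval (upd ξ l v) (pderiv ⟨l, i⟩ F) = 0) →
  Module.finrank Ω V + I.card + (n l + 1) ≤ Fintype.card (Pc n)

/-- JOB CR (a divisor of the hypersurface is not critical), from RAD and MAT -/
def S_CR : Prop := ∀ (κ : Type) [Fintype κ] [DecidableEq κ] (n : κ → ℕ) (k Ω : Type) [Field k]
  [CharZero k] [Field Ω] [CharZero Ω] [IsAlgClosed Ω] [Algebra k Ω] (F : MvPolynomial (Pc n) k),
  MH Set.univ (fun _ => 2) F → (∀ l, 2 ≤ n l) → Smth (map (algebraMap k Ω) F) →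
  ∀ ξ : Pc n → Ω, (∀ m, ∃ i, ξ ⟨m, i⟩ ≠ 0) → ∀ I : Finset (Pc n),
  AlgebraicIndependent k (fun t : I => ξ t) → Fintype.card (Pc n) ≤ I.card + 2 →
  ∀ l, ∃ i, aeval ξ (pderiv (⟨l, i⟩ : Pc n) F) ≠ 0

/-- JOB GP (a general simple point over the generic point of a divisor), from RAD -/
def S_GP : Prop := ∀ (κ : Type) [Fintype κ] [DecidableEq κ] (n : κ → ℕ) (k : Type) [Field k]
  [CharZero k] (F : MvPolynomial (Pc n) k), MH Set.univ (fun _ => 2) F → (∀ l, 2 ≤ n l) →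
  Smth (map (algebraMap k (AlgebraicClosure k)) F) → ∀ (l : κ) (i j : Fin (n l + 1)), i ≠ j →
  hm F (⟨l, i⟩ : Pc n) ⟨l, j⟩ ≠ 0 → ∀ π : MvPolynomial (Pc n) k, Irreducible π →
  ⟨l, i⟩ ∉ π.vars → ⟨l, j⟩ ∉ π.vars →
  ∃ (Ω : Type) (_ : Field Ω) (_ : CharZero Ω) (_ : IsAlgClosed Ω) (_ : Algebra k Ω)
    (ξ : Pc n → Ω), aeval ξ π = 0 ∧
    (∀ f : MvPolynomial (Pc n) k, ⟨l, i⟩ ∉ f.vars → ⟨l, j⟩ ∉ f.vars → aeval ξ f = 0 → π ∣ f) ∧
    aeval ξ F = 0 ∧
    ((aeval ξ (pderiv ⟨l, i⟩ F) ≠ 0 ∧ Transcendental (Lo k ξ ⟨l, i⟩ ⟨l, j⟩) (ξ ⟨l, j⟩)) ∨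
      (aeval ξ (pderiv ⟨l, j⟩ F) ≠ 0 ∧ Transcendental (Lo k ξ ⟨l, i⟩ ⟨l, j⟩) (ξ ⟨l, i⟩)))

/-- JOB HOR (every divisor dominates the base of one of the fibrations): the point `ξ` of `GP` is
general for one of the fibrations; from STB, MAT, CR and the classification (`Sat.over`,
`step1`) -/
def S_HOR : Prop := ∀ (κ : Type) [Fintype κ] [DecidableEq κ] (n : κ → ℕ) (k : Type) [Field k]
  [CharZero k] (F : MvPolynomial (Pc n) k), MH Set.univ (fun _ => 2) F → (∀ l, 2 ≤ n l) →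
  Smth (map (algebraMap k (AlgebraicClosure k)) F) → ∀ (Ω : Type) [Field Ω] [CharZero Ω]
  [IsAlgClosed Ω] [Algebra k Ω] (ξ : Pc n → Ω), (∀ m, ∃ i, ξ ⟨m, i⟩ ≠ 0) →
  aeval ξ F = 0 → ∀ I : Finset (Pc n), AlgebraicIndependent k (fun t : I => ξ t) →
  Fintype.card (Pc n) ≤ I.card + 2 → (∃ f, aeval ξ f = 0 ∧ ¬ F ∣ f) →
  ∃ (l : κ) (i j : Fin (n l + 1)), i ≠ j ∧
    ∀ f : MvPolynomial (Pc n) k, ⟨l, i⟩ ∉ f.vars → ⟨l, j⟩ ∉ f.vars → aeval ξ f = 0 → f = 0


/-- JOB IRR (smooth hypersurfaces are irreducible) -/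
def S_IRR : Prop := ∀ (κ : Type) [Fintype κ] [DecidableEq κ] [Nonempty κ] (n : κ → ℕ) (k : Type)
  [Field k] [CharZero k] (F : MvPolynomial (Pc n) k), MH Set.univ (fun _ => 2) F →
  (∀ l, 2 ≤ n l) → Smth (map (algebraMap k (AlgebraicClosure k)) F) → Irreducible F

/-- linear change of the coordinates of each factor -/
noncomputable def lin {κ : Type} {n : κ → ℕ} {k : Type} [Field k]
    (g : ∀ l : κ, Matrix (Fin (n l + 1)) (Fin (n l + 1)) k) :
    MvPolynomial (Pc n) k →ₐ[k] MvPolynomial (Pc n) k :=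
  aeval (fun s : Pc n => ∑ j, C (g s.1 s.2 j) * X (⟨s.1, j⟩ : Pc n))

/-- JOB GC (good coordinates exist) -/
def S_GC : Prop := ∀ (κ : Type) [Fintype κ] [DecidableEq κ] (n : κ → ℕ) (k : Type) [Field k]
  [CharZero k] (F : MvPolynomial (Pc n) k), MH Set.univ (fun _ => 2) F → (∀ l, 2 ≤ n l) →
  Irreducible F → ∃ g : ∀ l : κ, Matrix (Fin (n l + 1)) (Fin (n l + 1)) k,
    (∀ l, IsUnit (g l).det) ∧ GoodC (lin g F)

/-- JOB LINP (invariance under linear changes of coordinates) -/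
def S_LINP : Prop := ∀ (κ : Type) [Fintype κ] [DecidableEq κ] (n : κ → ℕ) (k : Type) [Field k]
  [CharZero k] (F : MvPolynomial (Pc n) k), MH Set.univ (fun _ => 2) F →
  Smth (map (algebraMap k (AlgebraicClosure k)) F) →
  ∀ g : ∀ l : κ, Matrix (Fin (n l + 1)) (Fin (n l + 1)) k, (∀ l, IsUnit (g l).det) →
    MH Set.univ (fun _ => 2) (lin g F) ∧
    Smth (map (algebraMap k (AlgebraicClosure k)) (lin g F))

/-- JOB CON (the fibrations are conic fibrations), from RAD and DEXT -/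
def S_CON : Prop := ∀ (κ : Type) [Fintype κ] [DecidableEq κ] (n : κ → ℕ) (k : Type) [Field k]
  [CharZero k] (F : MvPolynomial (Pc n) k), MH Set.univ (fun _ => 2) F → (∀ l, 2 ≤ n l) →
  Smth (map (algebraMap k (AlgebraicClosure k)) F) → Irreducible F → GoodC F →
  ∀ (K : Type) [Field K] [Algebra k K] (x : Pc n → K), Gen F x →
  ∀ (l : κ) (i j : Fin (n l + 1)), i ≠ j →
    Pool.Agent.TH178.HI.IsConicOver (Lo k x (⟨l, i⟩ : Pc n) ⟨l, j⟩)

/-- JOB CLO (the field of functions on the base of a conic fibration is algebraically closed in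
the function field of the total space) -/
def S_CLO : Prop := ∀ (k K : Type) [Field k] [CharZero k] [Field K] [Algebra k K]
  (L : IntermediateField k K), Pool.Agent.TH178.HI.IsConicOver L →
  ∀ a : K, IsAlgebraic L a → a ∈ L

/-- JOB EXT (linear disjointness and extension of embeddings). `N` consists of the elements of `M`
which are algebraic over `L`. -/
def S_EXT : Prop := ∀ (k K M E : Type) [Field k] [Field K] [CharZero K] [Algebra k K] [Field M]
  [Algebra k M] [Algebra K M] [IsScalarTower k K M] [FiniteDimensional K M] [Field E]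
  [IsAlgClosed E] (L : IntermediateField k K), (∀ a : K, IsAlgebraic L a → a ∈ L) →
  ∀ N : IntermediateField k M, (∀ z : M, z ∈ N ↔ IsAlgebraic L z) → ∀ (σ : K →+* E)
  (τ : N →+* E), (∀ (a : K) (h : algebraMap K M a ∈ N), a ∈ L →
    τ ⟨algebraMap K M a, h⟩ = σ a) →
  ∃ τ' : M →+* E, (∀ a : K, τ' (algebraMap K M a) = σ a) ∧ ∀ z : N, τ' z = τ z

/-- JOB FRL (homomorphisms from the function field of a hypersurface), and the special case of the
function field of an affine space -/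
def S_FRL : Prop := ∀ (ι k K E : Type) [Field k] [Field K] [Algebra k K] [Field E]
  (F : MvPolynomial ι k) (x : ι → K), Gen F x → ∀ ψ : MvPolynomial ι k →+* E,
  (∀ f, ψ f = 0 ↔ F ∣ f) → ∃ σ : K →+* E, ∀ f, σ (aeval x f) = ψ f

/-- JOB PL (the place): from GP, EMB, HOR, FRL, MAT. Over the generic point `ξ` of the divisor
`π = 0` there is an embedding `σ` of the function field in Laurent series for which all the
functions on the base of one of the fibrations are power series. -/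
def S_PL : Prop := ∀ (κ : Type) [Fintype κ] [DecidableEq κ] (n : κ → ℕ) (k : Type) [Field k]
  [CharZero k] (F : MvPolynomial (Pc n) k), MH Set.univ (fun _ => 2) F → (∀ l, 2 ≤ n l) →
  Smth (map (algebraMap k (AlgebraicClosure k)) F) → Irreducible F → GoodC F →
  ∀ (K : Type) [Field K] [Algebra k K] (x : Pc n → K), Gen F x →
  ∀ (l : κ) (i j : Fin (n l + 1)), i ≠ j → ∀ π : MvPolynomial (Pc n) k, Irreducible π →
  ⟨l, i⟩ ∉ π.vars → ⟨l, j⟩ ∉ π.vars → ∀ a : Pc n → k, a ⟨l, i⟩ = 0 → a ⟨l, j⟩ = 0 →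
  ∑ t, C (a t) * pderiv t π ≠ 0 →
  ∃ (Ω : Type) (_ : Field Ω) (_ : CharZero Ω) (_ : IsAlgClosed Ω) (_ : Algebra k Ω)
    (ξ : Pc n → Ω) (σ : K →+* Pui Ω), aeval ξ π = 0 ∧
    (∀ f : MvPolynomial (Pc n) k, ⟨l, i⟩ ∉ f.vars → ⟨l, j⟩ ∉ f.vars → aeval ξ f = 0 → π ∣ f) ∧
    (∀ c : k, σ (algebraMap k K c) = ps Ω (PowerSeries.C (algebraMap k Ω c))) ∧
    (∀ t : Pc n, t ≠ ⟨l, i⟩ → t ≠ ⟨l, j⟩ → σ (x t) = ps Ω (PowerSeries.C (ξ t) +
      PowerSeries.C (algebraMap k Ω (a t)) * PowerSeries.X)) ∧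
    (∀ r : K, ∃ f g : PowerSeries Ω, g ≠ 0 ∧ σ r * ps Ω g = ps Ω f) ∧
    ∃ (l' : κ) (i' j' : Fin (n l' + 1)), i' ≠ j' ∧
      ∃ ρ : Lo k x (⟨l', i'⟩ : Pc n) ⟨l', j'⟩ →+* PowerSeries Ω,
        ∀ y : Lo k x (⟨l', i'⟩ : Pc n) ⟨l', j'⟩, σ (y : K) = ps Ω (ρ y)

end Pool.Agent.Q35.HB
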