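import Pool.Agent.Q35.HB.Sch
import Pool.Agent.Q225.HB.Hen
import Pool.Agent.Q224.HB.SC
import Pool.Agent.Q95.HB.LG
import Pool.Agent.Q175.HB.Emb
import Pool.Agent.Q225.HB.Stb
import Pool.Agent.Q299.HB.Mat
import Pool.Agent.Q129.HB.RAD
import Pool.Agent.Q182.HB.Cr
import Pool.Agent.Q182.HB.Gp
import Pool.Agent.Q182.HB.Hor
import Pool.Agent.Q129.HB.IRR
import Pool.Agent.Q129.HB.GC
import Pool.Agent.Q225.HB.Linp
import Pool.Agent.Q175.HB.ConF
import Pool.Agent.Q14.HB.Clo
import Pool.Agent.Q14.HB.Ext
import Pool.Agent.Q299.HB.Frl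
import Pool.Agent.Q182.HB.Pl

/-!
# Project HB: the Hilbert property for smooth hypersurfaces of multidegree (2, ..., 2)

Parts by helper225 (power series and Hensel's lemma, stability, linear changes of coordinates),
helper224 (covers of affine space, extension of derivations), helper95 (derivations and integral
closures), helper175 (germs of curves, conic fibrations), helper299 (exchange, function fields),
helper129 (radicals, irreducibility, good coordinates), helper182 (critical loci, general points of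
divisors, horizontal divisors, the place), helper14 (closure, extension of embeddings).
-/

set_option autoImplicit false

namespace Pool.Agent.Q35.HB

open MvPolynomial Pool.Agent.Q35.ST Pool.Agent.TH178.HI AlgebraicGeometry CategoryTheory W560.HP

theorem hDext : S_DEXT := Pool.Agent.Q224.HB.dext

theorem hStb : S_STB := Pool.Agent.Q225.HB.stb hDext

theorem hRad : S_RAD := Pool.Agent.Q129.HB.rad hDext

theorem hCr : S_CR := Pool.Agent.Q182.HB.cr hRad Pool.Agent.Q299.HB.mat

theorem hGp : S_GP := Pool.Agent.Q182.HB.gp hRad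

theorem hHor : S_HOR := Pool.Agent.Q182.HB.hor hStb Pool.Agent.Q299.HB.mat hCr

theorem hCon : S_CON := Pool.Agent.Q175.HB.con hRad hDext

theorem hPl : S_PL :=
  Pool.Agent.Q182.HB.pl hGp Pool.Agent.Q175.HB.emb hHor Pool.Agent.Q299.HB.frl
    Pool.Agent.Q299.HB.mat

theorem scheme {κ : Type} [Fintype κ] [DecidableEq κ] {n : κ → ℕ} {k : Type} [Field k]
    [CharZero k] {F : MvPolynomial (Pc n) k}
    (hk : ∃ S : Finset k, IntermediateField.adjoin ℚ (S : Set k) = ⊤)
    (hF : MH Set.univ (fun _ => 2) F) (hn : ∀ l, 2 ≤ n l)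
    (hsm : Smth (map (algebraMap k (AlgebraicClosure k)) F))
    (X : Scheme.{0}) [IsIntegral X] (p : X ⟶ Spec (CommRingCat.of k)) [LocallyOfFiniteType p]
    (hX : BirTo F X p) :
    [∃ x : Pc n → k, Nz Set.univ x ∧ eval x F = 0 ∧ ∀ S, ¬ SpecIn F S x,
      Pool.Agent.TH178.HI.DensePoints k X p, HilbertProperty k X p,
      UnirationalScheme k X p].TFAE ∧
    ((∀ x : X, IsIntegrallyClosed (X.presheaf.stalk x)) →
      Pool.Agent.TH178.HI.DensePoints k X p → HilbertPropertyIso k X p) :=
  sch_main hPl Pool.Agent.Q14.HB.ext Pool.Agent.Q225.HB.hen Pool.Agent.Q95.HB.lg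
    Pool.Agent.Q224.HB.sc Pool.Agent.Q14.HB.clo hCon hDext Pool.Agent.Q129.HB.irr
    Pool.Agent.Q129.HB.gc Pool.Agent.Q225.HB.linp hk hF hn hsm X p hX

end Pool.Agent.Q35.HB
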