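import Pool.Agent.Q35.HB.Mod

/-!
# The generic point of the cone over a subvariety of a product of projective spaces
-/

set_option autoImplicit false
set_option linter.unusedSectionVars false

namespace Pool.Agent.Q35.HB

open MvPolynomial Pool.Agent.Q35.ST

section comp

variable {κ : Type} [Fintype κ] {n : κ → ℕ} {k : Type} [Field k]

/-- multidegree of a monomial -/
noncomputable def dg (m : Pc n →₀ ℕ) : κ →₀ ℕ :=
  Finsupp.equivFunOnFinite.symm (fun l => ∑ i, m ⟨l, i⟩)

lemma dg_apply (m : Pc n →₀ ℕ) (l : κ) : dg m l = ∑ i, m ⟨l, i⟩ := rfl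

/-- multihomogeneous component -/
noncomputable def cmp (d : κ →₀ ℕ) (f : MvPolynomial (Pc n) k) : MvPolynomial (Pc n) k := by
  classical
  exact ∑ m ∈ f.support with dg m = d, monomial m (coeff m f)

lemma cmp_mh (d : κ →₀ ℕ) (f : MvPolynomial (Pc n) k) : MH Set.univ (fun l => d l) (cmp d f) := by
  classical
  intro m hm l _
  have h1 : coeff m (cmp d f) ≠ 0 := mem_support_iff.1 hm
  unfold cmp at h1
  rw [coeff_sum] at h1
  obtain ⟨m', hm', h2⟩ := Finset.exists_ne_zero_of_sum_ne_zero h1
  rw [coeff_monomial] at h2
  have h3 : m' = m := by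
    by_contra h
    rw [if_neg h] at h2
    exact h2 rfl
  subst h3
  rw [Finset.mem_filter] at hm'
  rw [← dg_apply, hm'.2]

lemma cmp_sum (f : MvPolynomial (Pc n) k) [DecidableEq (κ →₀ ℕ)] :
    ∑ d ∈ f.support.image dg, cmp d f = f := by
  classical
  conv_rhs => rw [f.as_sum]
  rw [← Finset.sum_fiberwise_of_maps_to (s := f.support) (t := f.support.image dg)
    (g := dg) (fun m hm => Finset.mem_image_of_mem _ hm)]
  refine Finset.sum_congr rfl (fun d _ => ?_)
  unfold cmp
  refine Finset.sum_congr ?_ (fun _ _ => rfl)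
  ext m; simp

variable {K : Type} [Field K] [Algebra k K]

lemma prod_X_eq (m : Pc n →₀ ℕ) (y : Pc n → K) :
    m.prod (fun s e => (X s.1 * C (y s) : MvPolynomial κ K) ^ e) =
      monomial (dg m) (m.prod (fun s e => y s ^ e)) := by
  classical
  have h1 : m.prod (fun s e => (X s.1 * C (y s) : MvPolynomial κ K) ^ e) =
      ∏ s : Pc n, ((X s.1 * C (y s) : MvPolynomial κ K)) ^ m s :=
    Finsupp.prod_fintype _ _ (fun _ => pow_zero _)
  have h2 : m.prod (fun s e => y s ^ e) = ∏ s : Pc n, y s ^ m s :=
    Finsupp.prod_fintype _ _ (fun _ => pow_zero _)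
  rw [h1, h2]
  simp only [mul_pow]
  rw [Finset.prod_mul_distrib]
  have h3 : ∏ s : Pc n, (C (y s) : MvPolynomial κ K) ^ m s = C (∏ s : Pc n, y s ^ m s) := by
    rw [map_prod]; simp
  rw [h3, mul_comm, monomial_eq]
  congr 1
  rw [Finsupp.prod_fintype _ _ (fun _ => pow_zero _), Fintype.prod_sigma]
  refine Finset.prod_congr rfl (fun l _ => ?_)
  rw [dg_apply]
  exact (Finset.prod_pow_eq_pow_sum (s := Finset.univ) (f := fun i => m ⟨l, i⟩)
    (a := (X l : MvPolynomial κ K)))

lemma coeff_cone (d : κ →₀ ℕ) (f : MvPolynomial (Pc n) k) (y : Pc n → K) :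
    coeff d (aeval (fun s => (X s.1 * C (y s) : MvPolynomial κ K)) f) = aeval y (cmp d f) := by
  classical
  have h1 : aeval (fun s => (X s.1 * C (y s) : MvPolynomial κ K)) f =
      ∑ m ∈ f.support, monomial (dg m) (algebraMap k K (coeff m f) *
        m.prod (fun s e => y s ^ e)) := by
    conv_lhs => rw [f.as_sum]
    rw [map_sum]
    refine Finset.sum_congr rfl (fun m _ => ?_)
    rw [aeval_monomial, prod_X_eq, IsScalarTower.algebraMap_apply k K (MvPolynomial κ K),
      algebraMap_eq, C_mul_monomial]
  rw [h1, coeff_sum]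
  unfold cmp
  rw [map_sum, Finset.sum_filter]
  refine Finset.sum_congr (by ext; simp) (fun m _ => ?_)
  rw [coeff_monomial]
  by_cases h : dg m = d
  · rw [if_pos h, if_pos h, aeval_monomial]
  · rw [if_neg h, if_neg h]

end comp

section cone

variable {κ : Type} [Fintype κ] {n : κ → ℕ} {k K : Type} [Field k] [Field K] [Algebra k K]

/-- multihomogeneous coordinates of the generic point -/
structure Crd (F : MvPolynomial (Pc n) k) (y : Pc n → K) : Prop where
  one : ∀ l, ∃ b, y ⟨l, b⟩ = 1
  top : IntermediateField.adjoin k (Set.range y) = ⊤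
  zero : aeval y F = 0
  dvd : ∀ (d : κ → ℕ) (f : MvPolynomial (Pc n) k), MH Set.univ d f → aeval y f = 0 → F ∣ f

/-- the generic point of the cone -/
noncomputable def cx (y : Pc n → K) : Pc n → FractionRing (MvPolynomial κ K) :=
  fun s => algebraMap (MvPolynomial κ K) _ (X s.1 * C (y s))

lemma aeval_cx (y : Pc n → K) (f : MvPolynomial (Pc n) k) :
    aeval (cx y) f = algebraMap (MvPolynomial κ K) (FractionRing (MvPolynomial κ K))
      (aeval (fun s => (X s.1 * C (y s) : MvPolynomial κ K)) f) := by
  have h1 : (aeval (cx y) : MvPolynomial (Pc n) k →ₐ[k] FractionRing (MvPolynomial κ K)) =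
      (IsScalarTower.toAlgHom k (MvPolynomial κ K) (FractionRing (MvPolynomial κ K))).comp
        (aeval (fun s => (X s.1 * C (y s) : MvPolynomial κ K))) := by
    apply MvPolynomial.algHom_ext
    intro s
    rw [aeval_X, AlgHom.comp_apply, aeval_X]
    rfl
  exact DFunLike.congr_fun h1 f

theorem Crd.gen {F : MvPolynomial (Pc n) k} {y : Pc n → K} (h : Crd F y) {u : κ → ℕ}
    (hF : MH Set.univ u F) : Gen F (cx y) := by
  classical
  refine ⟨fun f => ?_, ?_⟩
  · rw [aeval_cx, map_eq_zero_iff _ (IsFractionRing.injective (MvPolynomial κ K)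
      (FractionRing (MvPolynomial κ K)))]
    constructor
    · intro h0
      rw [← cmp_sum f]
      refine Finset.dvd_sum (fun d _ => h.dvd (fun l => d l) _ (cmp_mh d f) ?_)
      rw [← coeff_cone, h0, coeff_zero]
    · rintro ⟨g, rfl⟩
      have h1 : aeval (fun s => (X s.1 * C (y s) : MvPolynomial κ K)) F = 0 := by
        ext d
        rw [coeff_cone, coeff_zero]
        by_cases hd : ∀ l, d l = u l
        · have h2 : cmp d F = F := by
            conv_rhs => rw [F.as_sum]
            unfold cmp
            rw [Finset.filter_true_of_mem]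
            intro m hm
            ext l
            rw [dg_apply, hF m hm l trivial, hd l]
          rw [h2, h.zero]
        · have h2 : cmp d F = 0 := by
            unfold cmp
            rw [Finset.filter_false_of_mem, Finset.sum_empty]
            intro m hm hc
            apply hd
            intro l
            rw [← hc, dg_apply, hF m hm l trivial]
          rw [h2, map_zero]
      rw [map_mul, h1, zero_mul]
  · rw [eq_top_iff]
    intro z _
    set T := IntermediateField.adjoin k (Set.range (cx y)) with hT
    let ιX : MvPolynomial κ K → FractionRing (MvPolynomial κ K) := algebraMap _ _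
    have hX : ∀ l, algebraMap (MvPolynomial κ K) (FractionRing (MvPolynomial κ K)) (X l) ∈ T := by
      intro l
      obtain ⟨b, hb⟩ := h.one l
      have h1 : cx y ⟨l, b⟩ ∈ T := IntermediateField.subset_adjoin _ _ ⟨_, rfl⟩
      unfold cx at h1
      rw [hb, C_1, mul_one] at h1
      exact h1
    have hX0 : ∀ l, algebraMap (MvPolynomial κ K) (FractionRing (MvPolynomial κ K)) (X l) ≠ 0 := by
      intro l h0
      rw [map_eq_zero_iff _ (IsFractionRing.injective (MvPolynomial κ K)
        (FractionRing (MvPolynomial κ K)))] at h0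
      exact X_ne_zero l h0
    have hC : ∀ s, algebraMap (MvPolynomial κ K) (FractionRing (MvPolynomial κ K)) (C (y s)) ∈ T := by
      intro s
      have h1 : cx y s ∈ T := IntermediateField.subset_adjoin _ _ ⟨_, rfl⟩
      have h2 : algebraMap (MvPolynomial κ K) (FractionRing (MvPolynomial κ K)) (C (y s)) =
          cx y s / algebraMap (MvPolynomial κ K) (FractionRing (MvPolynomial κ K)) (X s.1) := by
        rw [eq_div_iff (hX0 s.1)]
        unfold cx
        rw [← map_mul, mul_comm]
      rw [h2]
      exact div_mem h1 (hX s.1)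
    have hK : ∀ a : K, algebraMap (MvPolynomial κ K) (FractionRing (MvPolynomial κ K)) (C a) ∈ T := by
      intro a
      have h1 : a ∈ IntermediateField.adjoin k (Set.range y) := by rw [h.top]; trivial
      have hle : IntermediateField.adjoin k (Set.range y) ≤
          T.comap (IsScalarTower.toAlgHom k K (FractionRing (MvPolynomial κ K))) := by
        rw [IntermediateField.adjoin_le_iff]
        rintro _ ⟨s, rfl⟩
        exact hC s
      exact hle h1
    have hP : ∀ p : MvPolynomial κ K, algebraMap (MvPolynomial κ K)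
        (FractionRing (MvPolynomial κ K)) p ∈ T := by
      intro p
      induction p using MvPolynomial.induction_on with
      | C a => exact hK a
      | add p q hp hq => rw [map_add]; exact add_mem hp hq
      | mul_X p l hp => rw [map_mul]; exact mul_mem hp (hX l)
    obtain ⟨p, q, -, rfl⟩ := IsFractionRing.div_surjective (A := MvPolynomial κ K) z
    exact div_mem (hP p) (hP q)

end cone

end Pool.Agent.Q35.HB
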