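import Pool.Agent.Q35.HB.Stm

/-!
# Smooth hypersurfaces of multidegree (2, ..., 2) have no covers pulled back from all the bases
-/

set_option autoImplicit false

namespace Pool.Agent.Q35.HB

open MvPolynomial Pool.Agent.Q35.ST Pool.Agent.Helper165.P1 Pool.Agent.TH178.HI

section misc

lemma ps_injective (Ω : Type) [Field Ω] : Function.Injective (ps Ω) := by
  have h1 : Function.Injective (eP (E := Ω) 1 one_pos) := by
    intro a b h
    have h2 : eHom 1 one_pos a = eHom 1 one_pos b := congrArg Subtype.val h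
    unfold eHom at h2
    exact HahnSeries.embDomain_injective h2
  intro a b h
  exact HahnSeries.ofPowerSeries_injective (h1 h)

/-- a nonzero polynomial without the variable `s` is not divisible by `F` -/
lemma eq_zero_of_dvd {σ k : Type} [Field k] {F f : MvPolynomial σ k} {s : σ}
    (hF : pderiv s F ≠ 0) (hf : s ∉ f.vars) (hd : F ∣ f) : f = 0 := by
  classical
  by_contra h0
  obtain ⟨g, rfl⟩ := hd
  have hF0 : F ≠ 0 := left_ne_zero_of_mul h0
  have hg0 : g ≠ 0 := right_ne_zero_of_mul h0
  have h1 := degreeOf_mul_eq (n := s) hF0 hg0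
  have h2 : degreeOf s (F * g) = 0 := by
    by_contra h
    exact hf (mem_vars_iff_degreeOf_ne_zero.2 h)
  have h3 : degreeOf s F ≠ 0 := by
    intro h
    apply hF
    apply pderiv_eq_zero_of_notMem_vars
    intro hc
    exact mem_vars_iff_degreeOf_ne_zero.1 hc h
  omega

/-- ratios of power series -/
def Fr (Ω : Type) [Field Ω] : Set (Pui Ω) := {y | ∃ f g : PowerSeries Ω, g ≠ 0 ∧ y * ps Ω g = ps Ω f}

lemma fr_mul {Ω : Type} [Field Ω] {y z : Pui Ω} (hy : y ∈ Fr Ω) (hz : z ∈ Fr Ω) : y * z ∈ Fr Ω := by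
  obtain ⟨f, g, hg, h⟩ := hy
  obtain ⟨f', g', hg', h'⟩ := hz
  refine ⟨f * f', g * g', mul_ne_zero hg hg', ?_⟩
  rw [map_mul, map_mul, ← h, ← h']; ring

lemma fr_add {Ω : Type} [Field Ω] {y z : Pui Ω} (hy : y ∈ Fr Ω) (hz : z ∈ Fr Ω) : y + z ∈ Fr Ω := by
  obtain ⟨f, g, hg, h⟩ := hy
  obtain ⟨f', g', hg', h'⟩ := hz
  refine ⟨f * g' + f' * g, g * g', mul_ne_zero hg hg', ?_⟩
  rw [map_mul, map_add, map_mul, map_mul, ← h, ← h']; ring

lemma fr_ps {Ω : Type} [Field Ω] (f : PowerSeries Ω) : ps Ω f ∈ Fr Ω :=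
  ⟨f, 1, one_ne_zero, by rw [map_one, mul_one]⟩

lemma fr_inv {Ω : Type} [Field Ω] {y : Pui Ω} (hy : y ∈ Fr Ω) : y⁻¹ ∈ Fr Ω := by
  by_cases h0 : y = 0
  · rw [h0, inv_zero]
    exact ⟨0, 1, one_ne_zero, by rw [map_zero, zero_mul]⟩
  obtain ⟨f, g, hg, h⟩ := hy
  have hf : f ≠ 0 := by
    rintro rfl
    rw [map_zero] at h
    rcases mul_eq_zero.1 h with h1 | h1
    · exact h0 h1
    · exact hg (ps_injective Ω (by rw [h1, map_zero]))
  refine ⟨g, f, hf, ?_⟩
  rw [← h, ← mul_assoc, inv_mul_cancel₀ h0, one_mul]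

/-- the elements with images in the field of ratios of power series -/
noncomputable def frField {K M Ω : Type} [Field K] [Field M] [Algebra K M] [Field Ω] (τ : M →+* Pui Ω)
    (h : ∀ a : K, τ (algebraMap K M a) ∈ Fr Ω) : IntermediateField K M where
  carrier := {m | τ m ∈ Fr Ω}
  mul_mem' := by
    intro a b ha hb
    simp only [Set.mem_ofPred_eq] at ha hb ⊢
    rw [map_mul]; exact fr_mul ha hb
  add_mem' := by
    intro a b ha hb
    simp only [Set.mem_ofPred_eq] at ha hb ⊢
    rw [map_add]; exact fr_add ha hb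
  algebraMap_mem' := h
  inv_mem' := by
    intro a ha
    simp only [Set.mem_ofPred_eq] at ha ⊢
    rw [map_inv₀]; exact fr_inv ha

lemma mem_frField {K M Ω : Type} [Field K] [Field M] [Algebra K M] [Field Ω] {τ : M →+* Pui Ω}
    {h : ∀ a : K, τ (algebraMap K M a) ∈ Fr Ω} {m : M} : m ∈ frField τ h ↔ τ m ∈ Fr Ω := Iff.rfl

end misc

section covh

variable {κ : Type} [Fintype κ] [DecidableEq κ] {n : κ → ℕ} {k : Type} [Field k]
  [CharZero k] {F : MvPolynomial (Pc n) k}

/-- the image of a field extension with all functions on one of the bases in power series lies in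
the field of Laurent series -/
lemma in_fr (hHE : S_HEN) {K : Type} [Field K] [Algebra k K] {x : Pc n → K}
    (M : Type) [Field M] [Algebra k M] [Algebra K M] [IsScalarTower k K M]
    (hM2 : ∀ (l : κ) (i j : Fin (n l + 1)), i ≠ j →
      IntermediateField.adjoin K {z : M | IsAlgebraic (Lo k x (⟨l, i⟩ : Pc n) ⟨l, j⟩) z} = ⊤)
    {Ω : Type} [Field Ω] [CharZero Ω] [IsAlgClosed Ω] (τ : M →+* Pui Ω)
    (h1 : ∀ r : K, ∃ f g : PowerSeries Ω, g ≠ 0 ∧ τ (algebraMap K M r) * ps Ω g = ps Ω f)
    {l' : κ} {i' j' : Fin (n l' + 1)} (hij : i' ≠ j')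
    (ρ : Lo k x (⟨l', i'⟩ : Pc n) ⟨l', j'⟩ →+* PowerSeries Ω)
    (hρ : ∀ y : Lo k x (⟨l', i'⟩ : Pc n) ⟨l', j'⟩, τ (algebraMap K M (y : K)) = ps Ω (ρ y))
    (m : M) : τ m ∈ Fr Ω := by
  have hle : (⊤ : IntermediateField K M) ≤ frField τ h1 := by
    rw [← hM2 l' i' j' hij, IntermediateField.adjoin_le_iff]
    rintro z ⟨p, hp, hz⟩
    change τ z ∈ Fr Ω
    have h2 : (p.map ((ps Ω).comp ρ)).IsRoot (τ z) := by
      rw [Polynomial.IsRoot.def, Polynomial.eval_map]
      have h3 := congrArg τ hz
      rw [map_zero, Polynomial.aeval_def, Polynomial.hom_eval₂] at h3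
      rw [← h3]
      congr 1
      ext y
      have h4 := hρ y
      rw [RingHom.comp_apply, RingHom.comp_apply, ← h4]
      rfl
    obtain ⟨f, hf⟩ := hHE Ω _ ρ p hp _ h2
    rw [← hf]
    exact fr_ps f
  exact mem_frField.1 (hle (IntermediateField.mem_top (x := m)))

lemma vars_rename_val {σ : Type} [DecidableEq σ] {S : Set σ} {R : Type} [CommSemiring R]
    (f : MvPolynomial S R) {s : σ} (hs : s ∉ S) :
    s ∉ (rename (Subtype.val : S → σ) f).vars := by
  intro h
  have h1 := vars_rename (Subtype.val : S → σ) f h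
  rw [Finset.mem_image] at h1
  obtain ⟨t, _, rfl⟩ := h1
  exact hs t.2

lemma sum_extend {σ : Type} [Fintype σ] [DecidableEq σ] {S : Set σ} [Fintype S] {R : Type}
    [CommRing R] (π : MvPolynomial S R) (a : S → R) (a' : σ → R) (h1 : ∀ t : S, a' t = a t)
    (h2 : ∀ t, t ∉ S → a' t = 0) :
    ∑ t, C (a' t) * pderiv t (rename (Subtype.val : S → σ) π) =
      rename (Subtype.val : S → σ) (∑ t, C (a t) * pderiv t π) := by
  classical
  rw [map_sum]
  have h3 : ∀ t : S, rename (Subtype.val : S → σ) (C (a t) * pderiv t π) =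
      (fun t : σ => C (a' t) * pderiv t (rename (Subtype.val : S → σ) π)) t := by
    intro t
    rw [map_mul, rename_C]
    simp only
    rw [pderiv_rename Subtype.val_injective, h1]
  rw [Finset.sum_congr rfl (fun t _ => h3 t)]
  symm
  rw [← Finset.sum_subset (Finset.subset_univ (Finset.univ.filter (· ∈ S)))]
  · exact (Finset.sum_subtype (p := fun t => t ∈ S) (Finset.univ.filter (· ∈ S)) (by simp)
      (fun t : σ => C (a' t) * pderiv t (rename (Subtype.val : S → σ) π))).symm
  · intro t _ ht
    have : t ∉ S := by simpa using ht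
    rw [h2 t this, map_zero, zero_mul]

lemma dvd_of_rename_dvd {σ : Type} {S : Set σ} {R : Type} [CommRing R] {π f : MvPolynomial S R}
    (h : rename (Subtype.val : S → σ) π ∣ rename (Subtype.val : S → σ) f) : π ∣ f := by
  have h1 := map_dvd (killCompl (R := R) (Subtype.val_injective (p := (· ∈ S)))) h
  rwa [killCompl_rename_app, killCompl_rename_app] at h1

theorem covh [Nonempty κ] (hPL : S_PL) (hEX : S_EXT) (hHE : S_HEN) (hLG : S_LG) (hSC : S_SC)
    (hCL : S_CLO) (hCO : S_CON) (hDE : S_DEXT) (hF : MH Set.univ (fun _ => 2) F)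
    (hn : ∀ l, 2 ≤ n l) (hsm : Smth (map (algebraMap k (AlgebraicClosure k)) F))
    (hirr : Irreducible F) (hg : GoodC F) {K : Type} [Field K] [Algebra k K] {x : Pc n → K}
    (hx : Gen F x) (M : Type) [Field M] [Algebra k M] [Algebra K M] [IsScalarTower k K M]
    [FiniteDimensional K M] (hM1 : ∀ a : M, IsAlgebraic k a → a ∈ Set.range (algebraMap k M))
    (hM2 : ∀ (l : κ) (i j : Fin (n l + 1)), i ≠ j →
      IntermediateField.adjoin K {z : M | IsAlgebraic (Lo k x (⟨l, i⟩ : Pc n) ⟨l, j⟩) z} = ⊤) :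
    Function.Surjective (algebraMap K M) := by
  classical
  have hK : CharZero K := charZero_of_injective_algebraMap (algebraMap k K).injective
  obtain ⟨l⟩ := ‹Nonempty κ›
  obtain ⟨i, j, hij⟩ : ∃ i j : Fin (n l + 1), i ≠ j :=
    ⟨0, ⟨1, by have := hn l; omega⟩, by simp [Fin.ext_iff]⟩
  set s₁ : Pc n := ⟨l, i⟩ with hs₁
  set s₂ : Pc n := ⟨l, j⟩ with hs₂
  let S : Set (Pc n) := {t | t ≠ s₁ ∧ t ≠ s₂}
  have hS₁ : s₁ ∉ S := fun h => h.1 rfl
  have hS₂ : s₂ ∉ S := fun h => h.2 rfl
  set L := Lo k x s₁ s₂ with hL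
  have hclo : ∀ a : K, IsAlgebraic L a → a ∈ L :=
    hCL k K L (hCO κ n k F hF hn hsm hirr hg K x hx l i j hij)
  have hp1 : pderiv s₁ F ≠ 0 := by
    intro h
    apply (hg l i).1
    rw [← hs₁, h, map_zero]
  let N := LamK M L
  have hN : ∀ z : M, z ∈ N ↔ IsAlgebraic L z := fun z => mem_LamK
  have hLN : ∀ y ∈ L, algebraMap K M y ∈ N := fun y hy => algebraMap_mem_LamK hy
  have hxL : ∀ t : S, x t ∈ L := fun t => IntermediateField.subset_adjoin _ _ ⟨t, t.2, rfl⟩
  let x' : S → N := fun t => ⟨algebraMap K M (x t), hLN _ (hxL t)⟩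
  have hval : ∀ f : MvPolynomial S k, ((aeval x' f : N) : M) =
      algebraMap K M (aeval x (rename (Subtype.val : S → Pc n) f)) := by
    intro f
    rw [aeval_rename]
    have h1 : N.val.comp (aeval x') =
        (IsScalarTower.toAlgHom k K M).comp (aeval (x ∘ (Subtype.val : S → Pc n))) := by
      apply MvPolynomial.algHom_ext
      intro t
      simp [x']
    exact DFunLike.congr_fun h1 f
  have hinj : ∀ f : MvPolynomial S k, aeval x' f = 0 → f = 0 := by
    intro f hf
    have h1 := hval f
    rw [hf] at h1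
    have h2 : aeval x (rename (Subtype.val : S → Pc n) f) = 0 := by
      apply (algebraMap K M).injective
      rw [← h1, map_zero]; rfl
    have h3 := eq_zero_of_dvd hp1 (vars_rename_val f hS₁) ((hx.ker _).1 h2)
    exact rename_injective _ Subtype.val_injective (by rw [h3, map_zero])
  have hind : AlgebraicIndependent k x' := algebraicIndependent_iff.2 hinj
  set A := IntermediateField.adjoin k (Set.range x') with hA
  -- the functions on the base lie in `A`
  have hLA : ∀ y (hy : y ∈ L), (⟨algebraMap K M y, hLN y hy⟩ : N) ∈ A := by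
    intro y hy
    have hy' := hy
    rw [hL, Lo] at hy'
    induction hy' using IntermediateField.adjoin_induction with
    | mem y hy1 =>
      obtain ⟨t, ht, rfl⟩ := hy1
      exact IntermediateField.subset_adjoin _ _ ⟨⟨t, ht⟩, rfl⟩
    | algebraMap c =>
      have : (⟨algebraMap K M (algebraMap k K c), hLN _ hy⟩ : N) = algebraMap k N c := by
        apply Subtype.ext
        exact (IsScalarTower.algebraMap_apply k K M c).symm
      rw [this]
      exact A.algebraMap_mem c
    | add y z hy1 hz1 h1 h2 =>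
      have : (⟨algebraMap K M (y + z), hLN _ hy⟩ : N) =
          ⟨algebraMap K M y, hLN _ hy1⟩ + ⟨algebraMap K M z, hLN _ hz1⟩ := by
        apply Subtype.ext
        exact map_add _ _ _
      rw [this]
      exact add_mem (h1 hy1) (h2 hz1)
    | mul y z hy1 hz1 h1 h2 =>
      have : (⟨algebraMap K M (y * z), hLN _ hy⟩ : N) =
          ⟨algebraMap K M y, hLN _ hy1⟩ * ⟨algebraMap K M z, hLN _ hz1⟩ := by
        apply Subtype.ext
        exact map_mul _ _ _
      rw [this]
      exact mul_mem (h1 hy1) (h2 hz1)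
    | inv y hy1 h1 =>
      have : (⟨algebraMap K M y⁻¹, hLN _ hy⟩ : N) = (⟨algebraMap K M y, hLN _ hy1⟩)⁻¹ := by
        apply Subtype.ext
        exact map_inv₀ _ _
      rw [this]
      exact inv_mem (h1 hy1)
  let θ : L →+* A :=
    { toFun := fun y => ⟨⟨algebraMap K M (y : K), hLN y y.2⟩, hLA y y.2⟩
      map_one' := by apply Subtype.ext; apply Subtype.ext; exact map_one _
      map_mul' := by
        intro y z; apply Subtype.ext; apply Subtype.ext; exact map_mul _ _ _
      map_zero' := by apply Subtype.ext; apply Subtype.ext; exact map_zero _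
      map_add' := by
        intro y z; apply Subtype.ext; apply Subtype.ext; exact map_add _ _ _ }
  have halg : ∀ r : N, IsAlgebraic A r := by
    intro r
    obtain ⟨p, hp, h0⟩ := (hN r).1 r.2
    refine ⟨p.map θ, (Polynomial.map_ne_zero_iff θ.injective).2 hp, ?_⟩
    apply Subtype.ext
    have h1 : ((Polynomial.aeval r (p.map θ) : N) : M) =
        Polynomial.eval₂ ((algebraMap N M).comp ((algebraMap A N).comp θ)) (r : M) p := by
      rw [Polynomial.aeval_def, Polynomial.eval₂_map]
      exact Polynomial.hom_eval₂ p _ (algebraMap N M) r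
    rw [h1]
    exact h0
  -- the derivations
  have hD : ∀ s : S, ∃ D : Derivation k N N, ∀ t, D (x' t) = if s = t then 1 else 0 := by
    intro s
    refine hDE S k N x' (fun t => if s = t then 1 else 0) (fun f hf => ?_)
    rw [hinj f hf]
    simp
  choose D hD using hD
  have hint := hLG S k N x' hind halg D hD ?_
  · have hall := hSC S k N x' hind halg ?_ D hD hint
    · -- conclusion
      have hbot : (⊤ : IntermediateField K M) ≤ ⊥ := by
        rw [← hM2 l i j hij, IntermediateField.adjoin_le_iff]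
        intro z hz
        have hzN : z ∈ N := (hN z).2 hz
        have hle : A ≤ ((⊥ : IntermediateField K M).restrictScalars k).comap N.val := by
          rw [hA, IntermediateField.adjoin_le_iff]
          rintro _ ⟨t, rfl⟩
          exact (⊥ : IntermediateField K M).algebraMap_mem (x t)
        exact hle (hall ⟨z, hzN⟩)
      intro z
      have := hbot (IntermediateField.mem_top (x := z))
      exact IntermediateField.mem_bot.1 this
    · intro r hr
      have h1 : IsAlgebraic k (r : M) := hr.algHom N.val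
      obtain ⟨c, hc⟩ := hM1 _ h1
      exact ⟨c, Subtype.ext hc⟩
  · intro π hπ a ha
    have hπ' : Irreducible (rename (Subtype.val : S → Pc n) π) :=
      ((prime_rename_iff S).2 hπ.prime).irreducible
    let a' : Pc n → k := fun t => if h : t ∈ S then a ⟨t, h⟩ else 0
    have ha1 : ∀ t : S, a' t = a t := fun t => by simp only [a', dif_pos t.2]
    have ha2 : ∀ t, t ∉ S → a' t = 0 := fun t ht => by simp only [a', dif_neg ht]
    have ha3 : ∑ t, C (a' t) * pderiv t (rename (Subtype.val : S → Pc n) π) ≠ 0 := by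
      rw [sum_extend π a a' ha1 ha2]
      intro h
      exact ha (rename_injective _ Subtype.val_injective (by rw [h, map_zero]))
    obtain ⟨Ω, iF, iC, iA, iG, ξ, σ, hπ0, hπ1, hσk, hσx, hfr, l', i', j', hij', ρ, hρ⟩ :=
      hPL κ n k F hF hn hsm hirr hg K x hx l i j hij _ hπ' (vars_rename_val π hS₁)
        (vars_rename_val π hS₂) a' (ha2 _ hS₁) (ha2 _ hS₂) ha3
    refine ⟨Ω, iF, iC, iA, iG, fun t => ξ t, ?_, ?_⟩
    · intro f
      have h1 : aeval (fun t : S => ξ t) f = aeval ξ (rename (Subtype.val : S → Pc n) f) := by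
        rw [aeval_rename]; rfl
      rw [h1]
      constructor
      · intro h
        exact dvd_of_rename_dvd (hπ1 _ (vars_rename_val f hS₁) (vars_rename_val f hS₂) h)
      · rintro ⟨g, rfl⟩
        rw [map_mul, map_mul, hπ0, zero_mul]
    · intro τ hτk hτx r
      have hcomp : ∀ (y : K) (h : algebraMap K M y ∈ N), y ∈ L →
          τ ⟨algebraMap K M y, h⟩ = σ y := by
        intro y hy0 hy
        rw [hL, Lo] at hy
        induction hy using IntermediateField.adjoin_induction with
        | mem y hy1 =>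
          obtain ⟨t, ht, rfl⟩ := hy1
          rw [hσx t ht.1 ht.2]
          have := hτx ⟨t, ht⟩
          rw [← ha1 ⟨t, ht⟩] at this
          exact this
        | algebraMap c =>
          rw [hσk, ← hτk]
          congr 1
          apply Subtype.ext
          exact (IsScalarTower.algebraMap_apply k K M c).symm
        | add y z hy1 hz1 h1 h2 =>
          rw [map_add σ, ← h1 (hLN _ hy1), ← h2 (hLN _ hz1), ← map_add τ]
          congr 1
          apply Subtype.ext
          exact map_add _ _ _
        | mul y z hy1 hz1 h1 h2 =>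
          rw [map_mul σ, ← h1 (hLN _ hy1), ← h2 (hLN _ hz1), ← map_mul τ]
          congr 1
          apply Subtype.ext
          exact map_mul _ _ _
        | inv y hy1 h1 =>
          rw [map_inv₀ σ, ← h1 (hLN _ hy1), ← map_inv₀ τ]
          congr 1
          apply Subtype.ext
          exact map_inv₀ _ _
      obtain ⟨τ', h1, h2⟩ := hEX k K M (Pui Ω) L hclo N hN σ τ hcomp
      have h3 := in_fr hHE M hM2 τ' (fun r => by
        obtain ⟨f, g, hg, h⟩ := hfr r
        exact ⟨f, g, hg, by rw [h1]; exact h⟩) hij' ρ (fun y => by rw [h1]; exact hρ y) (r : M)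
      rw [h2] at h3
      exact h3

/-- a nonconstant polynomial has a nonzero derivative -/
lemma exists_pderiv_ne_zero {σ R : Type} [Field R] [CharZero R] {f : MvPolynomial σ R}
    (hf : Irreducible f) : ∃ s, pderiv s f ≠ 0 := by
  classical
  by_contra hcon
  push Not at hcon
  have h1 : f = C (coeff 0 f) := by
    ext m
    rw [coeff_C]
    split_ifs with hm
    · rw [← hm]
    · obtain ⟨s, hs⟩ : ∃ s, m s ≠ 0 := by
        by_contra h
        push Not at h
        exact hm (Finsupp.ext (fun s => (h s).symm))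
      have h2 := congrArg (coeff (m - Finsupp.single s 1)) (hcon s)
      rw [coeff_zero] at h2
      have h3 : coeff (m - Finsupp.single s 1) (pderiv s f) = coeff m f * (m s : R) := by
        conv_lhs => rw [f.as_sum]
        rw [map_sum, coeff_sum, Finset.sum_eq_single m]
        · rw [pderiv_monomial, coeff_monomial, if_pos rfl]
        · intro b _ hb
          rw [pderiv_monomial, coeff_monomial]
          split_ifs with hh
          · by_cases hb0 : b s = 0
            · simp [hb0]
            · exfalso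
              apply hb
              ext t
              have := DFunLike.congr_fun hh t
              simp only [Finsupp.tsub_apply] at this
              by_cases hts : s = t
              · subst hts
                simp only [Finsupp.single_eq_same] at this
                omega
              · simpa [Finsupp.single_apply, hts] using this
          · rfl
        · intro h
          rw [notMem_support_iff.1 h]
          simp
      rw [h3] at h2
      rcases mul_eq_zero.1 h2 with h | h
      · exact h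
      · exact absurd (by exact_mod_cast h) hs
  by_cases h0 : coeff 0 f = 0
  · apply hf.ne_zero
    rw [h1, h0, map_zero]
  · apply hf.not_isUnit
    rw [h1]
    exact (isUnit_iff_ne_zero.2 h0).map C

theorem hinv [Nonempty κ] (hPL : S_PL) (hCL : S_CLO) (hCO : S_CON)
    (hF : MH Set.univ (fun _ => 2) F)
    (hn : ∀ l, 2 ≤ n l) (hsm : Smth (map (algebraMap k (AlgebraicClosure k)) F))
    (hirr : Irreducible F) (hg : GoodC F) {K : Type} [Field K] [Algebra k K] {x : Pc n → K}
    (hx : Gen F x) (y : K)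
    (hy : ∀ (l : κ) (i j : Fin (n l + 1)), i ≠ j →
      IsAlgebraic (Lo k x (⟨l, i⟩ : Pc n) ⟨l, j⟩) y) :
    y ∈ Set.range (algebraMap k K) := by
  classical
  have hK : CharZero K := charZero_of_injective_algebraMap (algebraMap k K).injective
  have hyL : ∀ (l : κ) (i j : Fin (n l + 1)), i ≠ j → y ∈ Lo k x (⟨l, i⟩ : Pc n) ⟨l, j⟩ :=
    fun l i j hij => hCL k K _ (hCO κ n k F hF hn hsm hirr hg K x hx l i j hij) y (hy l i j hij)
  by_contra hcon
  obtain ⟨l⟩ := ‹Nonempty κ›
  obtain ⟨i, j, hij⟩ : ∃ i j : Fin (n l + 1), i ≠ j :=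
    ⟨0, ⟨1, by have := hn l; omega⟩, by simp [Fin.ext_iff]⟩
  set s₁ : Pc n := ⟨l, i⟩ with hs₁
  set s₂ : Pc n := ⟨l, j⟩ with hs₂
  let S : Set (Pc n) := {t | t ≠ s₁ ∧ t ≠ s₂}
  have hS₁ : s₁ ∉ S := fun h => h.1 rfl
  have hS₂ : s₂ ∉ S := fun h => h.2 rfl
  have hp1 : pderiv s₁ F ≠ 0 := by
    intro h
    apply (hg l i).1
    rw [← hs₁, h, map_zero]
  have hinj : ∀ f : MvPolynomial S k,
      aeval x (rename (Subtype.val : S → Pc n) f) = 0 → f = 0 := by
    intro f h2
    have h3 := eq_zero_of_dvd hp1 (vars_rename_val f hS₁) ((hx.ker _).1 h2)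
    exact rename_injective _ Subtype.val_injective (by rw [h3, map_zero])
  -- `y` as a reduced fraction
  obtain ⟨p, q, hpq, hq0, hyq⟩ : ∃ p q : MvPolynomial S k, IsRelPrime q p ∧ q ≠ 0 ∧
      y * aeval x (rename (Subtype.val : S → Pc n) q) =
        aeval x (rename (Subtype.val : S → Pc n) p) := by
    have h1 := hyL l i j hij
    rw [Lo, IntermediateField.mem_adjoin_iff_div] at h1
    obtain ⟨r, hr, s, hs, hrs⟩ := h1
    have h2 : x '' {t | t ≠ s₁ ∧ t ≠ s₂} = Set.range (fun t : S => x t) := by
      rw [Set.image_eq_range]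
    rw [h2, Algebra.adjoin_range_eq_range_aeval] at hr hs
    obtain ⟨p0, hp0⟩ := hr
    obtain ⟨q0, hq0⟩ := hs
    have h3 : ∀ f : MvPolynomial S k, aeval (fun t : S => x t) f =
        aeval x (rename (Subtype.val : S → Pc n) f) := by
      intro f; rw [aeval_rename]; rfl
    have hs0 : s ≠ 0 := by
      rintro rfl
      apply hcon
      rw [hrs, div_zero]
      exact ⟨0, map_zero _⟩
    have hq00 : q0 ≠ 0 := by
      rintro rfl
      apply hs0
      rw [← hq0]
      exact map_zero _
    obtain ⟨q, p, c, hrel, hcq, hcp⟩ := UniqueFactorizationMonoid.exists_reduced_factors q0 hq00 p0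
    have hc0 : c ≠ 0 := by
      rintro rfl
      apply hq00
      rw [← hcq, zero_mul]
    refine ⟨p, q, hrel, ?_, ?_⟩
    · rintro rfl
      apply hq00
      rw [← hcq, mul_zero]
    · have h4 : aeval x (rename (Subtype.val : S → Pc n) c) ≠ 0 := fun h => hc0 (hinj c h)
      apply mul_left_cancel₀ h4
      have h5 : y * s = r := by
        rw [hrs, div_mul_cancel₀ _ hs0]
      have h6 : s = aeval x (rename (Subtype.val : S → Pc n) (c * q)) := by
        rw [hcq, ← h3, ← hq0]; rfl
      have h7 : r = aeval x (rename (Subtype.val : S → Pc n) (c * p)) := by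
        rw [hcp, ← h3, ← hp0]; rfl
      rw [h6, h7] at h5
      simp only [map_mul] at h5
      rw [← h5]; ring
  -- a value which is taken
  obtain ⟨c, hc⟩ : ∃ c : k, ¬ IsUnit (p - C c * q) := by
    by_contra h
    push Not at h
    obtain ⟨u, -, hu⟩ := isUnit_iff_eq_C_of_isReduced.1 (h 0)
    obtain ⟨v, -, hv⟩ := isUnit_iff_eq_C_of_isReduced.1 (h 1)
    rw [map_zero, zero_mul, sub_zero] at hu
    rw [map_one, one_mul, hu] at hv
    have hq : q = C (u - v) := by rw [map_sub, ← hv]; ring
    apply hcon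
    have huv : algebraMap k K (u - v) ≠ 0 := by
      intro h0
      apply hq0
      rw [hq]
      rw [(map_eq_zero_iff _ (algebraMap k K).injective).1 h0, map_zero]
    refine ⟨u / (u - v), ?_⟩
    rw [map_div₀, div_eq_iff huv]
    rw [hu, hq, rename_C, rename_C, aeval_C, aeval_C] at hyq
    exact hyq.symm
  have hne : p - C c * q ≠ 0 := by
    intro h
    apply hcon
    have h1 : p = C c * q := sub_eq_zero.1 h
    rw [h1, map_mul, map_mul, rename_C, aeval_C] at hyq
    have h2 : aeval x (rename (Subtype.val : S → Pc n) q) ≠ 0 := fun h => hq0 (hinj q h)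
    exact ⟨c, (mul_right_cancel₀ h2 hyq).symm⟩
  obtain ⟨π, hπ, hπd⟩ := WfDvdMonoid.exists_irreducible_factor hc hne
  have hπq : ¬ π ∣ q := by
    intro h
    apply hπ.not_isUnit
    apply hpq h
    have : p = (p - C c * q) + C c * q := by ring
    rw [this]
    exact dvd_add hπd (h.mul_left _)
  obtain ⟨t₀, ht₀⟩ := exists_pderiv_ne_zero hπ
  have hπ' : Irreducible (rename (Subtype.val : S → Pc n) π) :=
    ((prime_rename_iff S).2 hπ.prime).irreducible
  let a : S → k := fun t => if t = t₀ then 1 else 0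
  let a' : Pc n → k := fun t => if h : t ∈ S then a ⟨t, h⟩ else 0
  have ha1 : ∀ t : S, a' t = a t := fun t => by simp only [a', dif_pos t.2]
  have ha2 : ∀ t, t ∉ S → a' t = 0 := fun t ht => by simp only [a', dif_neg ht]
  have ha0 : ∑ t, C (a t) * pderiv t π = pderiv t₀ π := by
    rw [Finset.sum_eq_single t₀]
    · simp [a]
    · intro t _ ht
      simp [a, ht]
    · intro h
      exact absurd (Finset.mem_univ _) h
  have ha3 : ∑ t, C (a' t) * pderiv t (rename (Subtype.val : S → Pc n) π) ≠ 0 := by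
    rw [sum_extend π a a' ha1 ha2, ha0]
    intro h
    exact ht₀ (rename_injective _ Subtype.val_injective (by rw [h, map_zero]))
  obtain ⟨Ω, iF, iC, iA, iG, ξ, σ, hπ0, hπ1, hσk, hσx, hfr, l', i', j', hij', ρ, hρ⟩ :=
    hPL κ n k F hF hn hsm hirr hg K x hx l i j hij _ hπ' (vars_rename_val π hS₁)
      (vars_rename_val π hS₂) a' (ha2 _ hS₁) (ha2 _ hS₂) ha3
  -- the values of `σ` at polynomials
  let χ : MvPolynomial S k →+* PowerSeries Ω :=
    eval₂Hom (PowerSeries.C.comp (algebraMap k Ω))
      (fun t : S => PowerSeries.C (ξ t) + PowerSeries.C (algebraMap k Ω (a' t)) * PowerSeries.X)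
  have hχ1 : ∀ f, σ (aeval x (rename (Subtype.val : S → Pc n) f)) = ps Ω (χ f) := by
    intro f
    have h1 : (σ.comp ((aeval x : MvPolynomial (Pc n) k →ₐ[k] K) : MvPolynomial (Pc n) k →+* K)).comp
        ((rename (Subtype.val : S → Pc n) : MvPolynomial S k →ₐ[k] MvPolynomial (Pc n) k) :
          MvPolynomial S k →+* MvPolynomial (Pc n) k) = (ps Ω).comp χ := by
      apply MvPolynomial.ringHom_ext
      · intro c
        simp only [RingHom.comp_apply, RingHom.coe_coe, rename_C, aeval_C, χ, eval₂Hom_C]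
        exact hσk c
      · intro t
        simp only [RingHom.comp_apply, RingHom.coe_coe, rename_X, aeval_X, χ, eval₂Hom_X']
        exact hσx t t.2.1 t.2.2
    exact RingHom.congr_fun h1 f
  have hχ2 : ∀ f, PowerSeries.constantCoeff (χ f) =
      aeval ξ (rename (Subtype.val : S → Pc n) f) := by
    intro f
    have h1 : (PowerSeries.constantCoeff (R := Ω)).comp χ =
        (((aeval ξ : MvPolynomial (Pc n) k →ₐ[k] Ω) : MvPolynomial (Pc n) k →+* Ω)).comp
        ((rename (Subtype.val : S → Pc n) : MvPolynomial S k →ₐ[k] MvPolynomial (Pc n) k) :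
          MvPolynomial S k →+* MvPolynomial (Pc n) k) := by
      apply MvPolynomial.ringHom_ext
      · intro c
        simp [χ]
      · intro t
        simp [χ]
    exact RingHom.congr_fun h1 f
  have hyc : y - algebraMap k K c ∈ Lo k x (⟨l', i'⟩ : Pc n) ⟨l', j'⟩ :=
    sub_mem (hyL l' i' j' hij') (IntermediateField.algebraMap_mem _ c)
  have h1 : (y - algebraMap k K c) * aeval x (rename (Subtype.val : S → Pc n) q) =
      aeval x (rename (Subtype.val : S → Pc n) (p - C c * q)) := by
    rw [map_sub, map_sub, map_mul, map_mul, rename_C, aeval_C, ← hyq]; ring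
  have h2 := congrArg σ h1
  rw [map_mul, hχ1, hχ1] at h2
  have h3 := hρ ⟨_, hyc⟩
  simp only at h3
  rw [h3, ← map_mul] at h2
  have h4 := congrArg PowerSeries.constantCoeff (ps_injective Ω h2)
  rw [map_mul, hχ2, hχ2] at h4
  obtain ⟨w, hw⟩ := hπd
  rw [hw, map_mul, map_mul, hπ0, zero_mul] at h4
  rcases mul_eq_zero.1 h4 with h5 | h5
  · have h6 : (⟨y - algebraMap k K c, hyc⟩ : Lo k x (⟨l', i'⟩ : Pc n) ⟨l', j'⟩) = 0 := by
      by_contra h7
      have h8 : IsUnit (ρ ⟨y - algebraMap k K c, hyc⟩) := (isUnit_iff_ne_zero.2 h7).map ρ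
      have h9 := h8.map (PowerSeries.constantCoeff (R := Ω))
      rw [h5] at h9
      exact not_isUnit_zero h9
    have h7 : y - algebraMap k K c = 0 := congrArg Subtype.val h6
    exact hcon ⟨c, (sub_eq_zero.1 h7).symm⟩
  · exact hπq (dvd_of_rename_dvd (hπ1 _ (vars_rename_val q hS₁) (vars_rename_val q hS₂) h5))

end covh

end Pool.Agent.Q35.HB
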