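import Pool.Agent.Q35.ST.All
import Pool.Agent.Q35.ST.Main2
import Pool.Agent.Q35.HB.Stm
import Pool.Agent.TH178.HI.Smooth

/-!
# Density of the rational points of smooth hypersurfaces of multidegree (2, ..., 2)
-/

set_option autoImplicit false
set_option linter.unusedSectionVars false

namespace Pool.Agent.Q35.HB

open MvPolynomial Pool.Agent.Q35.ST Cardinal

lemma card_of_fg {k : Type} [Field k] [CharZero k]
    (hk : ∃ S : Finset k, IntermediateField.adjoin ℚ (S : Set k) = ⊤) : #k ≤ ℵ₀ := by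
  obtain ⟨S, hS⟩ := hk
  have h1 := IntermediateField.cardinalMk_adjoin_le (F := ℚ) (S : Set k)
  rw [hS] at h1
  have h2 : #(⊤ : IntermediateField ℚ k) = #k := IntermediateField.topEquiv.toEquiv.cardinal_eq
  rw [h2] at h1
  refine h1.trans ?_
  simp

section

variable {κ : Type} [Fintype κ] [DecidableEq κ] {n : κ → ℕ} {k : Type} [Field k] [CharZero k]
  {F : MvPolynomial (Pc n) k}

/-- the rational points are dense if there is one which is not special -/
theorem dense_of_point (hc : #k ≤ ℵ₀) (hF : MH Set.univ (fun _ => 2) F) (hn : ∀ l, 2 ≤ n l)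
    (hsm : Smth (map (algebraMap k (AlgebraicClosure k)) F)) {x : Pc n → k} (hx : Nz Set.univ x)
    (hxF : eval x F = 0) (hsp : ∀ S, ¬ SpecIn F S x) {g : MvPolynomial (Pc n) k}
    (hg : ¬ F ∣ g) : ∃ y : Pc n → k, eval y F = 0 ∧ eval y g ≠ 0 := by
  obtain ⟨L, _, σ, hσ⟩ := Pool.Agent.TH178.HI.exists_dense k hc
  by_contra hcon
  push Not at hcon
  have hxn : Nz Set.univ (fun s => σ (x s)) := by
    intro l hl
    obtain ⟨i, hi⟩ := hx l hl
    exact ⟨i, fun h => hi (σ.injective (by rw [map_zero]; exact h))⟩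
  rcases LI_eq' sA sMIN sU sRI hσ hF (fun _ => by norm_num) (fun _ => le_refl 2) hn hsm hxn
    (fun S hS => hsp S (specIn_of_map σ hS)) with h | h
  · have h1 : (1 : MvPolynomial (Pc n) k) ∈ LI σ {y | eval y F = 0} (fun s => σ (x s)) := by
      rw [h]; trivial
    obtain ⟨U, hU, h2⟩ := h1
    have h3 := h2 x hxF (mem_of_mem_nhds hU)
    rw [map_one] at h3
    exact one_ne_zero h3
  · have h1 : g ∈ LI σ {y | eval y F = 0} (fun s => σ (x s)) :=
      ⟨Set.univ, Filter.univ_mem, fun y hy _ => hcon y hy⟩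
    rw [h, Ideal.mem_span_singleton] at h1
    exact hg h1

lemma mh_one {T : Set κ} : MH T 0 (1 : MvPolynomial (Pc n) k) := by
  classical
  intro m hm l _
  have h1 : m = 0 := by
    rw [← C_1, C_apply] at hm
    exact Finset.mem_singleton.1 (support_monomial_subset hm)
  subst h1
  simp

/-- the special points lie in a proper closed subset -/
theorem special_closed (hF : MH Set.univ (fun _ => 2) F) (hn : ∀ l, 2 ≤ n l)
    (hsm : Smth (map (algebraMap k (AlgebraicClosure k)) F)) (hirr : Irreducible F) :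
    ∃ (d : κ → ℕ) (h : MvPolynomial (Pc n) k), MH Set.univ d h ∧ ¬ F ∣ h ∧
      ∀ (S : Finset κ) (x : Pc n → k), Nz Set.univ x → eval x F = 0 → SpecIn F S x →
        eval x h = 0 := by
  classical
  obtain ⟨E, hE⟩ := spec_finite (G := F) sMIN sU hF (fun _ => by norm_num) hn hsm
  -- a linear form for each pair
  have hex : ∀ a : Finset κ × (Pc n → k), ∃ (d : κ → ℕ) (q : MvPolynomial (Pc n) k),
      MH Set.univ d q ∧ q ≠ 0 ∧ q.totalDegree ≤ 1 ∧
      (a.1.Nonempty → Nz Set.univ a.2 → ∀ x : Pc n → k,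
        (∀ l ∈ a.1, ∃ c : k, ∀ i, x ⟨l, i⟩ = c * a.2 ⟨l, i⟩) → eval x q = 0) := by
    rintro ⟨S, p⟩
    by_cases h : S.Nonempty ∧ Nz Set.univ p
    · obtain ⟨⟨l, hl⟩, hp⟩ := h
      obtain ⟨i, hi⟩ := hp l (Set.mem_univ _)
      obtain ⟨j, hj⟩ : ∃ j : Fin (n l + 1), j ≠ i := by
        have : Nontrivial (Fin (n l + 1)) :=
          Fin.nontrivial_iff_two_le.2 (by have := hn l; omega)
        exact exists_ne i
      refine ⟨fun m => if m = l then 1 else 0,
        C (p ⟨l, i⟩) * X ⟨l, j⟩ - C (p ⟨l, j⟩) * X ⟨l, i⟩, ?_, ?_, ?_, ?_⟩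
      · have hone : ∀ (c : k) (b : Fin (n l + 1)),
            MH Set.univ (fun m => if m = l then 1 else 0) (C c * X (⟨l, b⟩ : Pc n)) := by
          intro c b m hm l' _
          have h1 : m = Finsupp.single (⟨l, b⟩ : Pc n) 1 := by
            rw [C_mul_X_eq_monomial] at hm
            exact Finset.mem_singleton.1 (support_monomial_subset hm)
          subst h1
          by_cases hl' : l' = l
          · subst hl'
            simp [Finsupp.single_apply]
          · simp only [if_neg hl']
            refine Finset.sum_eq_zero (fun a _ => ?_)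
            rw [Finsupp.single_apply, if_neg]
            intro h
            exact hl' (congrArg Sigma.fst h).symm
        exact (hone _ _).sub (hone _ _)
      · intro h0
        have h1 := congrArg (eval (fun s : Pc n => if s = ⟨l, j⟩ then (1 : k) else 0)) h0
        have hne : (⟨l, i⟩ : Pc n) ≠ ⟨l, j⟩ := by
          intro h; apply hj; simpa using h.symm
        simp [hne] at h1
        exact hi h1
      · refine (totalDegree_sub _ _).trans (max_le ?_ ?_)
        · refine (totalDegree_mul _ _).trans ?_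
          rw [totalDegree_C, totalDegree_X]
        · refine (totalDegree_mul _ _).trans ?_
          rw [totalDegree_C, totalDegree_X]
      · intro _ _ x hx
        obtain ⟨c, hc⟩ := hx l hl
        simp only [map_sub, map_mul, eval_C, eval_X]
        rw [hc i, hc j]; ring
    · refine ⟨0, 1, ?_, one_ne_zero, by simp, fun h1 h2 => absurd ⟨h1, h2⟩ h⟩
      exact mh_one
  choose δ q hqd hq0 hq1 hq2 using hex
  obtain ⟨d, hd⟩ : ∃ d : κ → ℕ, MH Set.univ d (∏ a ∈ E, q a) := by
    refine Finset.prod_induction q (fun f => ∃ d : κ → ℕ, MH Set.univ d f) ?_ ⟨0, mh_one⟩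
      (fun a _ => ⟨_, hqd a⟩)
    rintro f g ⟨d, hd⟩ ⟨e, he⟩
    exact ⟨_, hd.mul he⟩
  refine ⟨d, ∏ a ∈ E, q a, hd, ?_, ?_⟩
  · intro hd
    obtain ⟨a, -, ha⟩ := (Prime.dvd_finsetProd_iff hirr.prime _).1 hd
    obtain ⟨w, hw⟩ := ha
    have hF0 : F ≠ 0 := hirr.ne_zero
    have hw0 : w ≠ 0 := by
      rintro rfl
      exact hq0 a (by rw [hw, mul_zero])
    have h1 : (q a).totalDegree = F.totalDegree + w.totalDegree := by
      rw [hw, totalDegree_mul_of_isDomain hF0 hw0]
    have h2 : 2 ≤ F.totalDegree := by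
      obtain ⟨m, hm⟩ : F.support.Nonempty := by
        rw [Finset.nonempty_iff_ne_empty, Ne, support_eq_empty]; exact hF0
      have h3 : m.sum (fun _ e => e) ≤ F.totalDegree := le_totalDegree hm
      by_cases hk : Nonempty κ
      · obtain ⟨l⟩ := hk
        have h4 : ∑ i, m ⟨l, i⟩ = 2 := hF m hm l (Set.mem_univ _)
        have h5 : ∑ i, m ⟨l, i⟩ ≤ m.sum (fun _ e => e) := by
          rw [Finsupp.sum_fintype _ _ (fun _ => rfl), Fintype.sum_sigma]
          exact Finset.single_le_sum (f := fun l => ∑ i, m ⟨l, i⟩) (fun _ _ => Nat.zero_le _)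
            (Finset.mem_univ l)
        omega
      · exfalso
        apply hirr.not_isUnit
        have : IsEmpty κ := not_nonempty_iff.1 hk
        have h6 : F = C (coeff 0 F) := eq_C_of_isEmpty F
        rw [h6]
        refine IsUnit.map C (isUnit_iff_ne_zero.2 (fun h => hF0 ?_))
        rw [h6, h, map_zero]
    have := hq1 a
    omega
  · intro S x hx hxF hS
    obtain ⟨p, hp, hp1, -, hp2⟩ := hE S x hx hxF hS
    rw [map_prod]
    exact Finset.prod_eq_zero hp (hq2 (S, p) hS.1 hp1 x hp2)

end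

end Pool.Agent.Q35.HB
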