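import Pool.Agent.Q35.HB.Covh
import Pool.Agent.Q35.HB.Den
import Pool.Agent.Q35.HB.Cone
import Pool.Agent.Y742.HC.All
import Pool.Agent.TH178.HI.MultiFin
import Pool.Agent.TH178.HI.Point

/-!
# The Hilbert property for smooth hypersurfaces of multidegree (2, ..., 2)
-/

set_option autoImplicit false
set_option linter.unusedSectionVars false

namespace Pool.Agent.Q35.HB

open MvPolynomial Pool.Agent.Q35.ST Pool.Agent.TH178.HI

section linear

variable {κ : Type} {n : κ → ℕ} {k K : Type} [Field k] [Field K] [Algebra k K]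

/-- the new coordinates -/
noncomputable def lx (g : ∀ l : κ, Matrix (Fin (n l + 1)) (Fin (n l + 1)) k) (x : Pc n → K) :
    Pc n → K :=
  fun s => ∑ j, algebraMap k K (g s.1 s.2 j) * x ⟨s.1, j⟩

lemma aeval_lin (g : ∀ l : κ, Matrix (Fin (n l + 1)) (Fin (n l + 1)) k) (x : Pc n → K)
    (f : MvPolynomial (Pc n) k) : aeval x (lin g f) = aeval (lx g x) f := by
  have h1 : (aeval x).comp (lin g) = (aeval (lx g x) : MvPolynomial (Pc n) k →ₐ[k] K) := by
    apply MvPolynomial.algHom_ext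
    intro s
    rw [AlgHom.comp_apply, lin, aeval_X, map_sum, aeval_X]
    unfold lx
    refine Finset.sum_congr rfl (fun j _ => ?_)
    rw [map_mul, aeval_C, aeval_X]
  exact DFunLike.congr_fun h1 f

lemma lin_lin (g h : ∀ l : κ, Matrix (Fin (n l + 1)) (Fin (n l + 1)) k)
    (f : MvPolynomial (Pc n) k) : lin h (lin g f) = lin (fun l => g l * h l) f := by
  have h1 : (lin h).comp (lin g) = (lin (fun l => g l * h l) :
      MvPolynomial (Pc n) k →ₐ[k] MvPolynomial (Pc n) k) := by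
    apply MvPolynomial.algHom_ext
    intro s
    rw [AlgHom.comp_apply, lin, lin, lin, aeval_X, map_sum, aeval_X]
    simp only [map_mul, aeval_C, aeval_X, Matrix.mul_apply, algebraMap_eq, map_sum,
      Finset.mul_sum, Finset.sum_mul]
    rw [Finset.sum_comm]
    refine Finset.sum_congr rfl (fun j _ => Finset.sum_congr rfl (fun m _ => ?_))
    ring
  exact DFunLike.congr_fun h1 f

lemma lin_one (f : MvPolynomial (Pc n) k) : lin (fun _ => 1) f = f := by
  have h1 : (lin (fun _ => 1) : MvPolynomial (Pc n) k →ₐ[k] MvPolynomial (Pc n) k) =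
      AlgHom.id k _ := by
    apply MvPolynomial.algHom_ext
    intro s
    rw [lin, aeval_X, Finset.sum_eq_single s.2]
    · simp
    · intro b _ hb
      rw [Matrix.one_apply_ne (Ne.symm hb), map_zero, zero_mul]
    · intro h; exact absurd (Finset.mem_univ _) h
  exact DFunLike.congr_fun h1 f

lemma lx_lx (g h : ∀ l : κ, Matrix (Fin (n l + 1)) (Fin (n l + 1)) k) (x : Pc n → K) :
    lx g (lx h x) = lx (fun l => g l * h l) x := by
  funext s
  have h1 := aeval_lin (fun l => g l * h l) x (X s)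
  rw [← lin_lin, aeval_lin, aeval_lin, aeval_X, aeval_X] at h1
  exact h1

lemma lx_one (x : Pc n → K) :
    lx (fun l => (1 : Matrix (Fin (n l + 1)) (Fin (n l + 1)) k)) x = x := by
  funext s
  have h1 := aeval_lin (fun l => (1 : Matrix (Fin (n l + 1)) (Fin (n l + 1)) k)) x (X s)
  rw [lin_one, aeval_X, aeval_X] at h1
  exact h1.symm

theorem gen_lin {F : MvPolynomial (Pc n) k} {x : Pc n → K} (hx : Gen F x)
    (g : ∀ l : κ, Matrix (Fin (n l + 1)) (Fin (n l + 1)) k) (hg : ∀ l, IsUnit (g l).det) :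
    Gen (lin g F) (lx (fun l => (g l)⁻¹) x) := by
  have h1 : (fun l => g l * (g l)⁻¹) = fun _ => 1 := by
    funext l; exact Matrix.mul_nonsing_inv _ (hg l)
  have h2 : (fun l => (g l)⁻¹ * g l) = fun _ => 1 := by
    funext l; exact Matrix.nonsing_inv_mul _ (hg l)
  refine ⟨fun f => ?_, ?_⟩
  · have h3 : f = lin g (lin (fun l => (g l)⁻¹) f) := by
      rw [lin_lin, h2, lin_one]
    have h4 : aeval (lx (fun l => (g l)⁻¹) x) f = aeval x (lin (fun l => (g l)⁻¹) f) :=
      (aeval_lin _ _ _).symm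
    rw [h4, hx.ker]
    constructor
    · intro h
      rw [h3]
      exact map_dvd (lin g) h
    · intro h
      have h5 := map_dvd (lin (fun l => (g l)⁻¹)) h
      rwa [lin_lin, h1, lin_one] at h5
  · rw [eq_top_iff, ← hx.top, IntermediateField.adjoin_le_iff]
    rintro _ ⟨s, rfl⟩
    have h3 : x s = lx g (lx (fun l => (g l)⁻¹) x) s := by
      rw [lx_lx, h1, lx_one]
    rw [h3]
    unfold lx
    refine sum_mem (fun j _ => mul_mem (IntermediateField.algebraMap_mem _ _) ?_)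
    exact IntermediateField.subset_adjoin _ _ ⟨⟨s.1, j⟩, rfl⟩

end linear

section main

variable {κ : Type} [Fintype κ] [DecidableEq κ] {n : κ → ℕ} {k : Type} [Field k]
  [CharZero k] {F : MvPolynomial (Pc n) k}

/-- the function field of the cone -/
theorem cone_main [Nonempty κ] (hPL : S_PL) (hEX : S_EXT) (hHE : S_HEN) (hLG : S_LG) (hSC : S_SC)
    (hCL : S_CLO) (hCO : S_CON) (hDE : S_DEXT) (hIR : S_IRR) (hGC : S_GC) (hLI : S_LINP)
    (hF : MH Set.univ (fun _ => 2) F)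
    (hn : ∀ l, 2 ≤ n l) (hsm : Smth (map (algebraMap k (AlgebraicClosure k)) F))
    (hd : ∀ g, ¬ F ∣ g → ∃ y : Pc n → k, eval y F = 0 ∧ eval y g ≠ 0)
    {K : Type} [Field K] [Algebra k K] {x : Pc n → K} (hx : Gen F x) :
    Realizable k K ∧ ∃ m : ℕ, Nonempty (K →ₐ[k] FractionRing (MvPolynomial (Fin m) k)) := by
  classical
  have hK : CharZero K := charZero_of_injective_algebraMap (algebraMap k K).injective
  have hirr := hIR κ n k F hF hn hsm
  obtain ⟨g, hg1, hg2⟩ := hGC κ n k F hF hn hirr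
  obtain ⟨hF', hsm'⟩ := hLI κ n k F hF hsm g hg1
  have hirr' := hIR κ n k _ hF' hn hsm'
  have hx' := gen_lin hx g hg1
  set x' := lx (fun l => (g l)⁻¹) x with hx'd
  set F' := lin g F with hF'd
  let T := {p : (l : κ) × (Fin (n l + 1) × Fin (n l + 1)) // p.2.1 ≠ p.2.2}
  let ε := Fintype.equivFin T
  let L₀ : T → IntermediateField k K := fun p =>
    Lo k x' (⟨p.1.1, p.1.2.1⟩ : Pc n) ⟨p.1.1, p.1.2.2⟩
  let L : Fin (Fintype.card T) → IntermediateField k K := fun i => L₀ (ε.symm i)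
  have hL : ∀ i, IsConicOver (L i) := fun i =>
    hCO κ n k F' hF' hn hsm' hirr' hg2 K x' hx' (ε.symm i).1.1 (ε.symm i).1.2.1
      (ε.symm i).1.2.2 (ε.symm i).2
  have hLof : ∀ (l : κ) (i j : Fin (n l + 1)), i ≠ j →
      ∃ t, L t = Lo k x' (⟨l, i⟩ : Pc n) ⟨l, j⟩ := by
    intro l i j hij
    refine ⟨ε ⟨⟨l, (i, j)⟩, hij⟩, ?_⟩
    change L₀ (ε.symm (ε ⟨⟨l, (i, j)⟩, hij⟩)) = _
    rw [Equiv.symm_apply_apply]
  have hinv' : ∀ a : K, (∀ i, IsAlgebraic (L i) a) → a ∈ Set.range (algebraMap k K) := by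
    intro a ha
    refine hinv hPL hCL hCO hF' hn hsm' hirr' hg2 hx' a (fun l i j hij => ?_)
    obtain ⟨t, ht⟩ := hLof l i j hij
    rw [← ht]
    exact ha t
  have hfg : ∃ S : Finset K, IntermediateField.adjoin k (S : Set K) = ⊤ := by
    refine ⟨Finset.univ.image x, ?_⟩
    rw [Finset.coe_image, Finset.coe_univ, Set.image_univ]
    exact hx.top
  obtain ⟨N, z, G, hz, hG, h⟩ := Pool.Agent.Y742.HC.field_main Pool.Agent.Y742.HC.sCon
    Pool.Agent.Y742.HC.sStep Pool.Agent.Y427.HC.sEq Pool.Agent.Y161.HC.sPure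
    Pool.Agent.Y849.HC.sHyp hfg L hL hinv'
  obtain ⟨c₀, hc₁, hc₂⟩ := specialise hx hd z G hG
  obtain ⟨m, ⟨φ⟩⟩ := h c₀ hc₁ hc₂
  obtain ⟨M, _, _, _, _, _, hM1, hM2, hM3⟩ := Pool.Agent.Y742.HC.cov φ L hL
  have hs := covh hPL hEX hHE hLG hSC hCL hCO hDE hF' hn hsm' hirr' hg2 hx' M hM1
    (fun l i j hij => by
      obtain ⟨t, ht⟩ := hLof l i j hij
      rw [← ht]
      exact hM2 t)
  exact ⟨hM3.equiv ((AlgEquiv.ofBijective (IsScalarTower.toAlgHom k K M)
    ⟨(algebraMap K M).injective, hs⟩)), m, ⟨φ⟩⟩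

end main

end Pool.Agent.Q35.HB
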