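import Pool.Agent.Q35.HB.Stm
import Pool.Agent.TH178.HI.Crit
import Pool.Agent.Y742.HC.Cov

/-!
# Specialisations, the function field of the cone, realizable fields
-/

set_option autoImplicit false

namespace Pool.Agent.Q35.HB

open MvPolynomial Pool.Agent.Q35.ST Pool.Agent.TH178.HI

section mod

variable {ι k K : Type} [Field k] [Field K] [Algebra k K] {F : MvPolynomial ι k} {ξ : ι → K}

lemma Gen.exists_frac (h : Gen F ξ) (a : K) : ∃ p q : MvPolynomial ι k, aeval ξ q ≠ 0 ∧
    a * aeval ξ q = aeval ξ p := by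
  have h1 : a ∈ IntermediateField.adjoin k (Set.range ξ) := by rw [h.top]; trivial
  rw [IntermediateField.mem_adjoin_iff_div] at h1
  obtain ⟨r, hr, s, hs, rfl⟩ := h1
  rw [Algebra.adjoin_range_eq_range_aeval] at hr hs
  obtain ⟨p, rfl⟩ := hr
  obtain ⟨q, rfl⟩ := hs
  by_cases hq : aeval ξ q = 0
  · refine ⟨0, 1, by simp, ?_⟩
    have h0 : (aeval ξ : MvPolynomial ι k →ₐ[k] K).toRingHom q = 0 := hq
    rw [h0]
    simp
  · exact ⟨p, q, hq, div_mul_cancel₀ _ hq⟩

/-- a finite family of elements of the function field can be specialised at a general rational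
point -/
theorem specialise (h : Gen F ξ)
    (hd : ∀ g, ¬ F ∣ g → ∃ y : ι → k, eval y F = 0 ∧ eval y g ≠ 0) {τ : Type} [Fintype τ]
    (x : τ → K) (G : MvPolynomial τ k) (hG : aeval x G ≠ 0) :
    ∃ c : τ → k, (∀ P : MvPolynomial τ k, aeval x P = 0 → eval c P = 0) ∧ eval c G ≠ 0 := by
  classical
  have hex : ∀ j, ∃ p q : MvPolynomial ι k, aeval ξ q ≠ 0 ∧ x j * aeval ξ q = aeval ξ p :=
    fun j => h.exists_frac (x j)
  choose p q hq hpq using hex
  set Q : MvPolynomial ι k := ∏ j, q j with hQ
  have hQ0 : aeval ξ Q ≠ 0 := by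
    rw [hQ, map_prod]
    exact Finset.prod_ne_zero_iff.2 (fun j _ => hq j)
  let φ : Localization.Away Q →+* K :=
    IsLocalization.Away.lift (S := Localization.Away Q) Q
      (g := (aeval ξ : MvPolynomial ι k →ₐ[k] K).toRingHom) (isUnit_iff_ne_zero.2 hQ0)
  have hφ : ∀ f, φ (algebraMap _ (Localization.Away Q) f) = aeval ξ f := fun f =>
    IsLocalization.Away.lift_eq Q _ f
  have hqu : ∀ j, IsUnit (algebraMap _ (Localization.Away Q) (q j)) := by
    intro j
    have h1 : IsUnit (algebraMap _ (Localization.Away Q) Q) :=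
      IsLocalization.Away.algebraMap_isUnit Q
    have h2 : algebraMap _ (Localization.Away Q) (q j) ∣ algebraMap _ (Localization.Away Q) Q :=
      map_dvd _ (Finset.dvd_prod_of_mem q (Finset.mem_univ j))
    exact isUnit_of_dvd_unit h2 h1
  have hz : ∀ j, ∃ z : Localization.Away Q, φ z = x j := by
    intro j
    obtain ⟨u, hu⟩ := hqu j
    refine ⟨algebraMap _ _ (p j) * ((u⁻¹ : (Localization.Away Q)ˣ) : Localization.Away Q), ?_⟩
    have h1 : φ ((u⁻¹ : (Localization.Away Q)ˣ) : Localization.Away Q) * aeval ξ (q j) = 1 := by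
      rw [← hφ, ← hu, ← map_mul, Units.inv_mul, map_one]
    rw [map_mul, hφ, ← hpq]
    rw [mul_assoc, mul_comm (aeval ξ (q j)), h1, mul_one]
  choose z hz using hz
  have hkey : ∀ P : MvPolynomial τ k, φ (eval₂ (algebraMap k (Localization.Away Q)) z P) =
      aeval x P := by
    intro P
    have h1 := MvPolynomial.hom_eval₂ P (algebraMap k (Localization.Away Q)) φ z
    refine h1.trans ?_
    rw [aeval_def]
    congr 1
    · ext a
      have h2 : algebraMap k (Localization.Away Q) a =
          algebraMap _ (Localization.Away Q) (C a : MvPolynomial ι k) := by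
        rw [← algebraMap_eq, ← IsScalarTower.algebraMap_apply]
      rw [RingHom.comp_apply, h2, hφ, aeval_C]
    · funext j; exact hz j
  obtain ⟨⟨g, m⟩, hg⟩ := IsLocalization.surj (Submonoid.powers Q)
    (eval₂ (algebraMap k (Localization.Away Q)) z G)
  simp only at hg
  have hg0 : aeval ξ g ≠ 0 := by
    rw [← hφ, ← hg, map_mul, hkey, hφ]
    obtain ⟨e, he⟩ := m.2
    refine mul_ne_zero hG ?_
    rw [← he, map_pow]
    exact pow_ne_zero _ hQ0
  obtain ⟨y, hyF, hyg⟩ := hd (g * Q) (fun hdv => by
    have := (h.ker _).2 hdv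
    rw [map_mul] at this
    exact mul_ne_zero hg0 hQ0 this)
  rw [map_mul] at hyg
  have hyQ : eval y Q ≠ 0 := right_ne_zero_of_mul hyg
  let ψ : Localization.Away Q →+* k :=
    IsLocalization.Away.lift (S := Localization.Away Q) Q (g := eval y)
      (isUnit_iff_ne_zero.2 hyQ)
  have hψ : ∀ f, ψ (algebraMap _ (Localization.Away Q) f) = eval y f := fun f =>
    IsLocalization.Away.lift_eq Q _ f
  have hkey2 : ∀ P : MvPolynomial τ k, ψ (eval₂ (algebraMap k (Localization.Away Q)) z P) =
      eval (fun j => ψ (z j)) P := by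
    intro P
    have h1 := MvPolynomial.hom_eval₂ P (algebraMap k (Localization.Away Q)) ψ z
    refine h1.trans ?_
    have h3 : ψ.comp (algebraMap k (Localization.Away Q)) = RingHom.id k := by
      ext a
      have h2 : algebraMap k (Localization.Away Q) a =
          algebraMap _ (Localization.Away Q) (C a : MvPolynomial ι k) := by
        rw [← algebraMap_eq, ← IsScalarTower.algebraMap_apply]
      rw [RingHom.comp_apply, h2, hψ, eval_C]
      rfl
    rw [h3]
    rfl
  refine ⟨fun j => ψ (z j), fun P hP => ?_, ?_⟩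
  · rw [← hkey2]
    obtain ⟨⟨r, m'⟩, hr⟩ := IsLocalization.surj (Submonoid.powers Q)
      (eval₂ (algebraMap k (Localization.Away Q)) z P)
    simp only at hr
    have h1 : aeval ξ r = 0 := by
      rw [← hφ, ← hr, map_mul, hkey, hP, zero_mul]
    have h2 : eval y r = 0 := by
      obtain ⟨w, hw⟩ := (h.ker _).1 h1
      rw [hw, map_mul, hyF, zero_mul]
    have h3 := congrArg ψ hr
    rw [map_mul, hψ, hψ, h2] at h3
    obtain ⟨e, he⟩ := m'.2
    refine (mul_eq_zero.1 h3).resolve_right ?_
    rw [← he, map_pow]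
    exact pow_ne_zero _ hyQ
  · rw [← hkey2]
    intro h0
    have h3 := congrArg ψ hg
    rw [map_mul, hψ, hψ, h0, zero_mul] at h3
    exact left_ne_zero_of_mul hyg h3.symm

end mod

/-- realizability descends to relatively algebraically closed subfields -/
theorem realizable_sub {k K T : Type} [Field k] [Field K] [Algebra k K] [Field T] [Algebra k T]
    [Algebra K T] [IsScalarTower k K T] (hcl : ∀ a : T, IsAlgebraic K a → a ∈ Set.range (algebraMap K T))
    (h : Realizable k T) : Realizable k K := by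
  obtain ⟨E, _, _, Ω, y, hΩ, hy, hcl2⟩ := h
  refine ⟨E, inferInstance, inferInstance, Ω, y.comp (IsScalarTower.toAlgHom k K T), hΩ, ?_, ?_⟩
  · rintro _ ⟨a, rfl⟩
    exact hy ⟨_, rfl⟩
  · intro z hz halg
    have hle : (y.comp (IsScalarTower.toAlgHom k K T)).fieldRange ≤ y.fieldRange := by
      rintro _ ⟨a, rfl⟩
      exact ⟨_, rfl⟩
    obtain ⟨w, rfl⟩ := hcl2 z hz (isAlgebraic_mono hle halg)
    have hw : IsAlgebraic K w := by
      obtain ⟨P, hP, hP0⟩ := halg
      -- transport the polynomial
      let θ : (y.comp (IsScalarTower.toAlgHom k K T)).fieldRange ≃ₐ[k] K :=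
        (AlgEquiv.ofInjectiveField (y.comp (IsScalarTower.toAlgHom k K T))).symm
      refine ⟨P.map (θ : _ →+* K), (Polynomial.map_ne_zero_iff (RingHom.injective _)).2 hP, ?_⟩
      apply y.toRingHom.injective
      rw [map_zero, ← hP0, Polynomial.aeval_def, Polynomial.aeval_def, Polynomial.eval₂_map]
      refine (Polynomial.hom_eval₂ P _ y.toRingHom w).trans ?_
      congr 1
      ext a
      have h1 : y (algebraMap K T (θ a)) = (AlgEquiv.ofInjectiveField
        (y.comp (IsScalarTower.toAlgHom k K T)) (θ a) : E) := rfl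
      change y (algebraMap K T (θ a)) = (a : E)
      rw [h1]
      change ((θ.symm (θ a) : _) : E) = a
      rw [AlgEquiv.symm_apply_apply]
    obtain ⟨a, ha⟩ := hcl w hw
    exact ⟨a, by rw [← ha]; rfl⟩

end Pool.Agent.Q35.HB
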