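import Pool.Agent.Q35.HB.Fin

/-!
# The Hilbert property for smooth hypersurfaces of multidegree (2, ..., 2): schemes
-/

set_option autoImplicit false
set_option linter.unusedSectionVars false

namespace Pool.Agent.Q35.HB

open MvPolynomial Pool.Agent.Q35.ST Pool.Agent.TH178.HI AlgebraicGeometry CategoryTheory W560.HP

/-- the field of rational functions as the function field of affine space -/
theorem gen_zero {ι k : Type} [Field k] : Gen (0 : MvPolynomial ι k)
    (fun i => algebraMap (MvPolynomial ι k) (FractionRing (MvPolynomial ι k)) (X i)) := by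
  have h0 : ∀ f : MvPolynomial ι k, aeval (fun i => algebraMap (MvPolynomial ι k)
      (FractionRing (MvPolynomial ι k)) (X i)) f =
      algebraMap (MvPolynomial ι k) (FractionRing (MvPolynomial ι k)) f := by
    intro f
    have h1 : (aeval (fun i => algebraMap (MvPolynomial ι k)
        (FractionRing (MvPolynomial ι k)) (X i)) :
        MvPolynomial ι k →ₐ[k] FractionRing (MvPolynomial ι k)) =
        IsScalarTower.toAlgHom k (MvPolynomial ι k) (FractionRing (MvPolynomial ι k)) := by
      apply MvPolynomial.algHom_ext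
      intro i
      rw [aeval_X]
      rfl
    exact DFunLike.congr_fun h1 f
  refine ⟨fun f => ?_, ?_⟩
  · rw [h0, map_eq_zero_iff _ (IsFractionRing.injective (MvPolynomial ι k)
      (FractionRing (MvPolynomial ι k))), zero_dvd_iff]
  · rw [eq_top_iff]
    intro z _
    set T := IntermediateField.adjoin k (Set.range (fun i => algebraMap (MvPolynomial ι k)
      (FractionRing (MvPolynomial ι k)) (X i))) with hT
    have hP : ∀ p : MvPolynomial ι k, algebraMap (MvPolynomial ι k)
        (FractionRing (MvPolynomial ι k)) p ∈ T := by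
      intro p
      induction p using MvPolynomial.induction_on with
      | C a => exact T.algebraMap_mem a
      | add p q hp hq => rw [map_add]; exact add_mem hp hq
      | mul_X p l hp =>
        rw [map_mul]
        exact mul_mem hp (IntermediateField.subset_adjoin _ _ ⟨l, rfl⟩)
    obtain ⟨p, q, -, rfl⟩ := IsFractionRing.div_surjective (A := MvPolynomial ι k) z
    exact div_mem (hP p) (hP q)

section sch

variable {κ : Type} [Fintype κ] [DecidableEq κ] {n : κ → ℕ} {k : Type} [Field k]
  [CharZero k] {F : MvPolynomial (Pc n) k}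

/-- The integral `k`-scheme `X` is birational to `F = 0`. -/
def BirTo (F : MvPolynomial (Pc n) k) (X : Scheme.{0}) [IsIntegral X]
    (p : X ⟶ Spec (CommRingCat.of k)) : Prop :=
  ∃ (K : Type) (_ : Field K) (_ : Algebra k K) (e : X.functionField ≃+* K) (y : Pc n → K),
    (∀ a : k, e (toFF k X p a) = algebraMap k K a) ∧ Crd F y

/-- a point which is not special, from a specialisation -/
lemma point_of_spec {K : Type} [Field K] [Algebra k K] {y : Pc n → K} (hy : Crd F y)
    {h : MvPolynomial (Pc n) k} (hsp : ∀ (S : Finset κ) (x : Pc n → k), Nz Set.univ x →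
      eval x F = 0 → SpecIn F S x → eval x h = 0) {c : Pc n → k}
    (hc : ∀ P : MvPolynomial (Pc n) k, aeval y P = 0 → eval c P = 0) (hc' : eval c h ≠ 0) :
    ∃ x : Pc n → k, Nz Set.univ x ∧ eval x F = 0 ∧ ∀ S, ¬ SpecIn F S x := by
  have hcF : eval c F = 0 := hc F hy.zero
  have hcN : Nz Set.univ c := by
    intro l _
    obtain ⟨b, hb⟩ := hy.one l
    refine ⟨b, fun h0 => ?_⟩
    have h1 := hc (X ⟨l, b⟩ - 1) (by rw [map_sub, aeval_X, map_one, hb, sub_self])
    rw [map_sub, eval_X, map_one, h0, zero_sub] at h1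
    exact neg_ne_zero.2 one_ne_zero h1
  exact ⟨c, hcN, hcF, fun S hS => hc' (hsp S c hcN hcF hS)⟩

theorem sch_main (hPL : S_PL) (hEX : S_EXT) (hHE : S_HEN) (hLG : S_LG) (hSC : S_SC)
    (hCL : S_CLO) (hCO : S_CON) (hDE : S_DEXT) (hIR : S_IRR) (hGC : S_GC) (hLI : S_LINP)
    (hk : ∃ S : Finset k, IntermediateField.adjoin ℚ (S : Set k) = ⊤)
    (hF : MH Set.univ (fun _ => 2) F) (hn : ∀ l, 2 ≤ n l)
    (hsm : Smth (map (algebraMap k (AlgebraicClosure k)) F))
    (X : Scheme.{0}) [IsIntegral X] (p : X ⟶ Spec (CommRingCat.of k)) [LocallyOfFiniteType p]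
    (hX : BirTo F X p) :
    [∃ x : Pc n → k, Nz Set.univ x ∧ eval x F = 0 ∧ ∀ S, ¬ SpecIn F S x,
      Pool.Agent.TH178.HI.DensePoints k X p, HilbertProperty k X p,
      UnirationalScheme k X p].TFAE ∧
    ((∀ x : X, IsIntegrallyClosed (X.presheaf.stalk x)) →
      Pool.Agent.TH178.HI.DensePoints k X p → HilbertPropertyIso k X p) := by
  classical
  obtain ⟨K, _, _, e, y, he, hy⟩ := hX
  have hne : Nonempty κ := by
    by_contra hem
    have : IsEmpty κ := not_nonempty_iff.1 hem
    have h1 : F = C (coeff 0 F) := eq_C_of_isEmpty F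
    have h2 : coeff 0 F = 0 := by
      have h3 := hy.zero
      rw [h1, aeval_C] at h3
      exact (map_eq_zero_iff _ (algebraMap k K).injective).1 h3
    have h3 : F = 0 := by rw [h1, h2, map_zero]
    obtain ⟨s, -⟩ := hsm (fun _ => 0) (fun l _ => (IsEmpty.false l).elim) (by
      rw [h3, map_zero, map_zero])
    exact IsEmpty.false s.1
  have hirr := hIR κ n k F hF hn hsm
  obtain ⟨d, h, hh, hFh, hsp⟩ := special_closed hF hn hsm hirr
  have hyh : aeval y h ≠ 0 := fun h0 => hFh (hy.dvd d h hh h0)
  have key : (∃ x : Pc n → k, Nz Set.univ x ∧ eval x F = 0 ∧ ∀ S, ¬ SpecIn F S x) →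
      Realizable k K ∧ ∃ m : ℕ, Nonempty (K →ₐ[k] FractionRing (MvPolynomial (Fin m) k)) := by
    rintro ⟨x, hx1, hx2, hx3⟩
    obtain ⟨h1, m, ⟨φ⟩⟩ := cone_main hPL hEX hHE hLG hSC hCL hCO hDE hIR hGC hLI hF hn hsm
      (fun g hg => dense_of_point (card_of_fg hk) hF hn hsm hx1 hx2 hx3 hg) (hy.gen hF)
    refine ⟨realizable_sub (fun a ha => Pool.Agent.Y742.HC.alg_frac a ha) h1, m, ⟨?_⟩⟩
    exact φ.comp (IsScalarTower.toAlgHom k K (FractionRing (MvPolynomial κ K)))
  have h31 : HilbertProperty k X p → Pool.Agent.TH178.HI.DensePoints k X p := by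
    intro h
    refine (h 0 (fun i => i.elim0) (fun i => i.elim0) (fun i => i.elim0) (fun i => i.elim0)
      (fun i => i.elim0) (fun i => i.elim0)).mono ?_
    rintro x ⟨s, hs, hx, -⟩
    exact ⟨s, hs, hx⟩
  have h21 : Pool.Agent.TH178.HI.DensePoints k X p →
      ∃ x : Pc n → k, Nz Set.univ x ∧ eval x F = 0 ∧ ∀ S, ¬ SpecIn F S x := by
    intro hd
    obtain ⟨a, ha⟩ := exists_place k X p hd K e he (τ := Option (Pc n)) fun o => match o with
      | none => (aeval y h)⁻¹
      | some s => y s
    have ha' : ∀ P : MvPolynomial (Pc n) k, aeval y P = 0 → eval (fun s => a (some s)) P = 0 := by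
      intro P hP
      have h1 := ha (rename some P) (by
        rw [aeval_rename]
        exact hP)
      rw [eval_rename] at h1
      exact h1
    refine point_of_spec hy hsp ha' (fun h0 => ?_)
    have h1 := ha (MvPolynomial.X none * rename some h - 1) (by
      rw [map_sub, map_mul, aeval_X, aeval_rename, map_one]
      change (aeval y h)⁻¹ * aeval y h - 1 = 0
      rw [inv_mul_cancel₀ hyh, sub_self])
    rw [map_sub, map_mul, eval_X, eval_rename, map_one] at h1
    have h2 : eval (a ∘ some) h = 0 := h0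
    rw [h2, mul_zero, zero_sub] at h1
    exact neg_ne_zero.2 one_ne_zero h1
  have h41 : UnirationalScheme k X p →
      ∃ x : Pc n → k, Nz Set.univ x ∧ eval x F = 0 ∧ ∀ S, ¬ SpecIn F S x := by
    rintro ⟨ι, hι, φ, hφ⟩
    let ψ : K →ₐ[k] FractionRing (MvPolynomial ι k) :=
      { φ.comp (e.symm : K →+* X.functionField) with
        commutes' := fun a => by
          change φ (e.symm (algebraMap k K a)) = _
          rw [← he a, RingEquiv.symm_apply_apply]
          exact hφ a }
    have hψ : ∀ P : MvPolynomial (Pc n) k, aeval (fun s => ψ (y s)) P = ψ (aeval y P) := by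
      intro P
      exact (DFunLike.congr_fun (MvPolynomial.comp_aeval (f := y) ψ) P).symm
    obtain ⟨c, hc1, hc2⟩ := specialise (gen_zero (ι := ι) (k := k)) (fun g hg => by
      have hg0 : g ≠ 0 := fun h0 => hg (by rw [h0])
      obtain ⟨z, hz⟩ : ∃ z : ι → k, eval z g ≠ 0 := by
        by_contra hcon
        push Not at hcon
        exact hg0 (MvPolynomial.funext (fun z => by rw [hcon z, map_zero]))
      exact ⟨z, map_zero _, hz⟩) (fun s : Pc n => ψ (y s)) h (by
        rw [hψ]
        intro h0
        exact hyh ((map_eq_zero_iff ψ ψ.toRingHom.injective).1 h0))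
    exact point_of_spec hy hsp (fun P hP => hc1 P (by rw [hψ, hP, map_zero])) hc2
  have h13 : (∃ x : Pc n → k, Nz Set.univ x ∧ eval x F = 0 ∧ ∀ S, ¬ SpecIn F S x) →
      HilbertProperty k X p := fun h => (key h).1.hilbert hk X p ⟨e, he⟩
  have h14 : (∃ x : Pc n → k, Nz Set.univ x ∧ eval x F = 0 ∧ ∀ S, ¬ SpecIn F S x) →
      UnirationalScheme k X p := by
    intro h
    obtain ⟨-, m, ⟨φ⟩⟩ := key h
    refine ⟨Fin m, inferInstance, (φ : K →+* FractionRing (MvPolynomial (Fin m) k)).comp
      (e : X.functionField →+* K), fun a => ?_⟩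
    change φ (e (toFF k X p a)) = _
    rw [he a, AlgHom.commutes]
  refine ⟨?_, fun hn' hd => iso_of_hp Pool.Agent.W376.HP.nrm k X p hn' (h13 (h21 hd))⟩
  tfae_have 1 → 3 := h13
  tfae_have 3 → 2 := h31
  tfae_have 2 → 1 := h21
  tfae_have 1 → 4 := h14
  tfae_have 4 → 1 := h41
  tfae_finish

end sch

end Pool.Agent.Q35.HB
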